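import Pool.Agent.J4H11.GC.Tow3
import Pool.Agent.J4H11.RC.Avg

/-!
# From boxes to points of bounded height (logarithmic version)
-/

set_option autoImplicit false

namespace Pool.Agent.J4H11.GC

open Finset WeierstrassCurve Pool.Agent.H901R3.MS Module Pool.Agent.J4H11.RC

open Classical in
theorem avg2 {r : ℕ} (i : Fin r) {a b : Fin r → ℤ} (hD : ∀ j, Disc (a j : ℚ) (b j : ℚ))
    {ι : Type} (Lf0 : ι → ((j : Fin r) → Pt (a j : ℚ) (b j : ℚ)) → Prop) {k : ℕ}
    (R : (j : Fin r) → Pt (a j : ℚ) (b j : ℚ)) (f : Fin k → Pt (a i : ℚ) (b i : ℚ))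
    (γ : ℝ) (hγ : 0 ≤ γ) (Cb : ℝ) (hCb : 0 ≤ Cb) (L0 : ℕ) (hL03 : 3 ≤ L0)
    (hbox : ∀ L : ℕ, L0 ≤ L → ∀ (δ : ι) (c : (j : Fin r) → Pt (a j : ℚ) (b j : ℚ)),
      ((((Fintype.piFinset (fun _ : Fin r => range L)) ×ˢ
        (Fintype.piFinset (fun _ : Fin k => range L))).filter
      (fun nz => Lf0 δ (bp i c R f nz.1 nz.2))).card : ℝ) ≤
        Cb * (L : ℝ) ^ r * (L : ℝ) ^ k * Real.log L ^ (-γ)) :
    ∃ C : ℝ, 0 ≤ C ∧ ∀ (δ : ι) (T : ℝ), 2 ≤ T → ∀ c : (j : Fin r) → Pt (a j : ℚ) (b j : ℚ),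
      {P : (j : Fin r) → Pt (a j : ℚ) (b j : ℚ) | (∀ j, hx (P j - c j) ≤ T ^ 2) ∧ Lf0 δ P}.Finite ∧
      ({P : (j : Fin r) → Pt (a j : ℚ) (b j : ℚ) |
        (∀ j, hx (P j - c j) ≤ T ^ 2) ∧ Lf0 δ P}.ncard : ℝ) ≤
        C * T ^ (∑ j, finrank ℤ (Pt (a j : ℚ) (b j : ℚ))) * Real.log T ^ (-γ) := by
  have hb := fun j => pt_balls (a j) (b j) (hD j)
  choose m ψ C C' hC0 hC hC'0 hC' using hb
  set ρ : ℕ := ∑ j, finrank ℤ (Pt (a j : ℚ) (b j : ℚ)) with hρ
  set B : ℝ := 1 + ∑ j, C j with hB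
  have hCs : 0 ≤ ∑ j, C j := sum_nonneg fun j _ => hC0 j
  have hB1 : 1 ≤ B := by linarith
  have hCB : ∀ j, 1 + C j ≤ B := fun j => by
    have := single_le_sum (f := C) (fun l _ => hC0 l) (mem_univ j)
    linarith
  set B' : ℝ := ∑ j, ‖ψ j (R j)‖ + ∑ s, ‖ψ i (f s)‖ with hB'
  have hBR0 : 0 ≤ ∑ j, ‖ψ j (R j)‖ := sum_nonneg fun j _ => norm_nonneg _
  have hBf0 : 0 ≤ ∑ s, ‖ψ i (f s)‖ := sum_nonneg fun s _ => norm_nonneg _
  have hB'0 : 0 ≤ B' := by linarith
  have hRB' : ∀ j, ‖ψ j (R j)‖ ≤ ∑ j, ‖ψ j (R j)‖ := fun j =>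
    single_le_sum (f := fun j => ‖ψ j (R j)‖) (fun l _ => norm_nonneg _) (mem_univ j)
  set B2 : ℝ := B + B' with hB2
  have hB21 : 1 ≤ B2 := by linarith
  set K : ℝ := ∏ j, (C' j * B2 ^ (finrank ℤ (Pt (a j : ℚ) (b j : ℚ)))) with hK
  have hK0 : 0 ≤ K := prod_nonneg fun j _ => mul_nonneg (hC'0 j) (by positivity)
  -- the big ball
  have hbig : ∀ T : ℝ, 1 ≤ T → ∀ c : (j : Fin r) → Pt (a j : ℚ) (b j : ℚ),
      ∃ Bg : Finset ((j : Fin r) → Pt (a j : ℚ) (b j : ℚ)),
        (∀ Q : (j : Fin r) → Pt (a j : ℚ) (b j : ℚ), Q ∈ Bg ↔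
          ∀ j, ‖ψ j (Q j) - ψ j (c j)‖ ≤ B2 * T) ∧ (Bg.card : ℝ) ≤ K * T ^ ρ := by
    intro T hT c
    have hBT : 1 ≤ B2 * T := by nlinarith
    refine ⟨Fintype.piFinset (fun j => (hC' j (B2 * T) (ψ j (c j)) hBT).1.toFinset),
      fun Q => ?_, ?_⟩
    · rw [Fintype.mem_piFinset]
      simp only [Set.Finite.mem_toFinset, Set.mem_ofPred_eq]
    · rw [Fintype.card_piFinset]
      push_cast
      have h1 : ∀ j ∈ (univ : Finset (Fin r)),
          ((hC' j (B2 * T) (ψ j (c j)) hBT).1.toFinset.card : ℝ) ≤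
          (C' j * B2 ^ (finrank ℤ (Pt (a j : ℚ) (b j : ℚ)))) *
            T ^ (finrank ℤ (Pt (a j : ℚ) (b j : ℚ))) := by
        intro j _
        have h2 := (hC' j (B2 * T) (ψ j (c j)) hBT).2
        rw [Set.ncard_eq_toFinset_card _ (hC' j (B2 * T) (ψ j (c j)) hBT).1] at h2
        refine h2.trans (le_of_eq ?_)
        rw [mul_pow]
        ring
      refine (prod_le_prod (fun j _ => Nat.cast_nonneg _) h1).trans (le_of_eq ?_)
      rw [prod_mul_distrib, ← hK, hρ, prod_pow_eq_pow_sum]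
  have hWsub : ∀ T : ℝ, 1 ≤ T → ∀ c : (j : Fin r) → Pt (a j : ℚ) (b j : ℚ),
      ∀ P : (j : Fin r) → Pt (a j : ℚ) (b j : ℚ), (∀ j, hx (P j - c j) ≤ T ^ 2) →
      ∀ j, ‖ψ j (P j) - ψ j (c j)‖ ≤ B * T := by
    intro T hT c P hP j
    rw [← map_sub]
    have h1 := (abs_le.1 (hC j (P j - c j))).2
    have h2 : ‖ψ j (P j - c j)‖ ^ 2 ≤ (B * T) ^ 2 := by
      have h3 := hCB j
      have h4 := hP j
      have h5 : C j ≤ C j * T ^ 2 := by
        have : (1 : ℝ) ≤ T ^ 2 := one_le_pow₀ hT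
        nlinarith [hC0 j]
      have h6 : (1 + C j) * T ^ 2 ≤ (B * T) ^ 2 := by
        rw [mul_pow]
        apply mul_le_mul_of_nonneg_right _ (by positivity)
        nlinarith
      nlinarith
    exact (abs_le_of_sq_le_sq' h2 (by positivity)).2
  set c0 : ℝ := Real.log (L0 + 1) ^ γ with hc0
  have hc00 : 0 ≤ c0 := Real.rpow_nonneg (Real.log_nonneg (by
    have : (0 : ℝ) ≤ L0 := Nat.cast_nonneg _
    linarith)) _
  refine ⟨2 ^ γ * K * Cb + K * c0, by positivity, fun δ T hT2 c => ?_⟩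
  have hT : 1 ≤ T := by linarith
  set Lf := Lf0 δ with hLfdef
  have hT0 : 0 < T := by linarith
  set W := {P : (j : Fin r) → Pt (a j : ℚ) (b j : ℚ) | (∀ j, hx (P j - c j) ≤ T ^ 2) ∧ Lf P}
    with hW
  obtain ⟨Bg, hBg1, hBg2⟩ := hbig T hT c
  have hWB : W ⊆ (Bg : Set ((j : Fin r) → Pt (a j : ℚ) (b j : ℚ))) := by
    rintro P ⟨hP1, -⟩
    rw [mem_coe, hBg1]
    intro j
    refine (hWsub T hT c P hP1 j).trans ?_
    apply mul_le_mul_of_nonneg_right _ hT0.le
    linarith
  have hWf : W.Finite := (finite_toSet Bg).subset hWB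
  refine ⟨hWf, ?_⟩
  rw [Set.ncard_eq_toFinset_card W hWf]
  set Wf := hWf.toFinset with hWfdef
  have hWc : (Wf.card : ℝ) ≤ K * T ^ ρ := by
    refine le_trans ?_ hBg2
    have : Wf ⊆ Bg := by
      intro P hP
      rw [hWfdef, Set.Finite.mem_toFinset] at hP
      exact hWB hP
    exact_mod_cast card_le_card this
  have hlogT : 0 < Real.log T := Real.log_pos (by linarith)
  have hT8 : 0 < Real.log T ^ (-γ) := Real.rpow_pos_of_pos hlogT _
  have hTρ0 : 0 < T ^ ρ := by positivity
  by_cases hcase : T < L0 + 1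
  · have h1 : 1 ≤ c0 * Real.log T ^ (-γ) := by
      have h2 : Real.log T ^ γ ≤ c0 := by
        apply Real.rpow_le_rpow hlogT.le _ hγ
        exact Real.log_le_log hT0 hcase.le
      have h3 : Real.log T ^ γ * Real.log T ^ (-γ) = 1 := by
        rw [← Real.rpow_add hlogT]
        simp
      calc (1 : ℝ) = Real.log T ^ γ * Real.log T ^ (-γ) := h3.symm
        _ ≤ _ := mul_le_mul_of_nonneg_right h2 hT8.le
    have h4 : K * T ^ ρ ≤ K * c0 * (T ^ ρ * Real.log T ^ (-γ)) := by
      have h5 : 0 ≤ K * T ^ ρ := by positivity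
      nlinarith
    have h6 : 0 ≤ 2 ^ γ * K * Cb * (T ^ ρ * Real.log T ^ (-γ)) := by positivity
    linarith
  · push Not at hcase
    set L := ⌊T⌋₊ with hL
    have hLT : (L : ℝ) ≤ T := Nat.floor_le hT0.le
    have hTL : T < (L : ℝ) + 1 := Nat.lt_floor_add_one T
    have hLL0 : L0 ≤ L := by
      rw [hL, Nat.le_floor_iff hT0.le]
      linarith
    have hL3 : 3 ≤ L := hL03.trans hLL0
    have hL3R : (3 : ℝ) ≤ L := by exact_mod_cast hL3
    have hL0R : (0 : ℝ) < L := by linarith
    have hs := hbox L hLL0 δ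
    rw [← hLfdef] at hs
    set box := Fintype.piFinset (fun _ : Fin r => range L) with hboxd
    set boz := Fintype.piFinset (fun _ : Fin k => range L) with hbozd
    have hinj : (Wf ×ˢ (box ×ˢ boz)).card ≤ (Bg.sigma (fun Q => (box ×ˢ boz).filter
        (fun nz => Lf (bp i Q R f nz.1 nz.2)))).card := by
      refine card_le_card_of_injOn (fun z => ⟨fun j => if j = i then
        z.1 j - z.2.1 j • R j - (if h : i = j then h ▸ (∑ s, z.2.2 s • f s) else 0) else
        z.1 j - z.2.1 j • R j, z.2⟩) ?_ ?_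
      · rintro ⟨P, ⟨n, z⟩⟩ hz
        rw [mem_coe, mem_product, mem_product] at hz
        obtain ⟨hP, hn, hz⟩ := hz
        simp only at hP hn hz
        rw [hWfdef, Set.Finite.mem_toFinset] at hP
        rw [mem_coe, mem_sigma]
        have hnT : ∀ j, (n j : ℝ) ≤ T := by
          intro j
          have h4 := Fintype.mem_piFinset.1 hn j
          rw [mem_range] at h4
          have h5 : (n j : ℝ) ≤ L := by exact_mod_cast h4.le
          linarith
        have hzT : ∀ s, (z s : ℝ) ≤ T := by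
          intro s
          have h4 := Fintype.mem_piFinset.1 hz s
          rw [mem_range] at h4
          have h5 : (z s : ℝ) ≤ L := by exact_mod_cast h4.le
          linarith
        refine ⟨?_, ?_⟩
        · rw [hBg1]
          intro j
          simp only
          have h2 := hWsub T hT c P hP.1 j
          have h4 : (n j : ℝ) * ‖ψ j (R j)‖ ≤ T * ∑ j, ‖ψ j (R j)‖ :=
            mul_le_mul (hnT j) (hRB' j) (norm_nonneg _) hT0.le
          by_cases hj : j = i
          · subst hj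
            rw [if_pos rfl, dif_pos rfl]
            have h1 : ψ j (P j - n j • R j - ∑ s, z s • f s) - ψ j (c j) =
                (ψ j (P j) - ψ j (c j)) - (n j : ℝ) • ψ j (R j) - ∑ s, (z s : ℝ) • ψ j (f s) := by
              rw [map_sub, map_sub, map_nsmul, ← Nat.cast_smul_eq_nsmul ℝ, map_sum]
              have h1' : ∑ s, ψ j (z s • f s) = ∑ s, (z s : ℝ) • ψ j (f s) :=
                sum_congr rfl fun s _ => by rw [map_nsmul, ← Nat.cast_smul_eq_nsmul ℝ]
              rw [h1']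
              abel
            rw [h1]
            refine (norm_sub_le _ _).trans ?_
            have h3 := norm_sub_le (ψ j (P j) - ψ j (c j)) ((n j : ℝ) • ψ j (R j))
            rw [norm_smul, Real.norm_natCast] at h3
            have h5 : ‖∑ s, (z s : ℝ) • ψ j (f s)‖ ≤ T * ∑ s, ‖ψ j (f s)‖ := by
              refine (norm_sum_le _ _).trans ?_
              rw [mul_sum]
              refine sum_le_sum fun s _ => ?_
              rw [norm_smul, Real.norm_natCast]
              exact mul_le_mul_of_nonneg_right (hzT s) (norm_nonneg _)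
            rw [hB2, hB']
            linarith
          · rw [if_neg hj]
            have h1 : ψ j (P j - n j • R j) - ψ j (c j) =
                (ψ j (P j) - ψ j (c j)) - (n j : ℝ) • ψ j (R j) := by
              rw [map_sub, map_nsmul, ← Nat.cast_smul_eq_nsmul ℝ]
              abel
            rw [h1]
            refine (norm_sub_le _ _).trans ?_
            rw [norm_smul, Real.norm_natCast]
            have h5 : 0 ≤ T * ∑ s, ‖ψ i (f s)‖ := by positivity
            rw [hB2, hB']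
            linarith
        · rw [mem_filter, mem_product]
          refine ⟨⟨hn, hz⟩, ?_⟩
          have h1 : bp i (fun j => if j = i then
              P j - n j • R j - (if h : i = j then h ▸ (∑ s, z s • f s) else 0) else
              P j - n j • R j) R f n z = P := by
            funext j
            unfold bp
            by_cases hj : j = i
            · subst hj
              rw [Function.update_self]
              beta_reduce
              rw [if_pos rfl, dif_pos rfl]
              abel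
            · rw [Function.update_of_ne hj]
              beta_reduce
              rw [if_neg hj]
              abel
          simp only
          rw [h1]
          exact hP.2
      · rintro ⟨P, n⟩ _ ⟨P', n'⟩ _ h
        simp only [Sigma.mk.injEq] at h
        obtain ⟨h1, h2⟩ := h
        have h3 : n = n' := eq_of_heq h2
        subst h3
        rw [Prod.mk.injEq]
        refine ⟨?_, rfl⟩
        funext j
        have h4 := congrFun h1 j
        by_cases hj : j = i
        · rw [if_pos hj, if_pos hj] at h4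
          exact sub_left_injective (sub_left_injective h4)
        · rw [if_neg hj, if_neg hj] at h4
          exact sub_left_injective h4
    rw [card_product, card_product, card_sigma] at hinj
    have hbc : box.card = L ^ r := by
      rw [hboxd, Fintype.card_piFinset]
      simp
    have hbz : boz.card = L ^ k := by
      rw [hbozd, Fintype.card_piFinset]
      simp
    rw [hbc, hbz] at hinj
    have h1 : (Wf.card : ℝ) * ((L : ℝ) ^ r * (L : ℝ) ^ k) ≤
        ∑ Q ∈ Bg, (((box ×ˢ boz).filter (fun nz => Lf (bp i Q R f nz.1 nz.2))).card : ℝ) := by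
      exact_mod_cast hinj
    have h2 : ∑ Q ∈ Bg, (((box ×ˢ boz).filter (fun nz => Lf (bp i Q R f nz.1 nz.2))).card : ℝ) ≤
        Bg.card * (Cb * (L : ℝ) ^ r * (L : ℝ) ^ k * Real.log L ^ (-γ)) := by
      rw [← nsmul_eq_mul]
      exact sum_le_card_nsmul _ _ _ (fun Q _ => hs Q)
    have hLr : (0 : ℝ) < (L : ℝ) ^ r * (L : ℝ) ^ k := by positivity
    have hlogL : 0 < Real.log L := Real.log_pos (by linarith)
    have hL8 : 0 < Real.log L ^ (-γ) := Real.rpow_pos_of_pos hlogL _
    have h3 : (Wf.card : ℝ) ≤ Bg.card * (Cb * Real.log L ^ (-γ)) := by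
      have h4 : (Wf.card : ℝ) * ((L : ℝ) ^ r * (L : ℝ) ^ k) ≤
          (Bg.card * (Cb * Real.log L ^ (-γ))) * ((L : ℝ) ^ r * (L : ℝ) ^ k) := by
        refine (h1.trans h2).trans (le_of_eq ?_)
        ring
      exact le_of_mul_le_mul_right h4 hLr
    have h5 : Real.log L ^ (-γ) ≤ 2 ^ γ * Real.log T ^ (-γ) := by
      have h6 : Real.log T / 2 ≤ Real.log L := by
        have h7 : T ≤ L * L := by nlinarith
        have h8 : Real.log T ≤ Real.log (L * L) := Real.log_le_log hT0 h7
        rw [Real.log_mul hL0R.ne' hL0R.ne'] at h8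
        linarith
      calc Real.log L ^ (-γ) ≤ (Real.log T / 2) ^ (-γ) :=
            Real.rpow_le_rpow_of_nonpos (by positivity) h6 (by linarith)
        _ = 2 ^ γ * Real.log T ^ (-γ) := by
            rw [Real.div_rpow hlogT.le (by norm_num), Real.rpow_neg (by norm_num : (0 : ℝ) ≤ 2)]
            field_simp
    have h6 : (Bg.card : ℝ) * (Cb * Real.log L ^ (-γ)) ≤
        (K * T ^ ρ) * (Cb * (2 ^ γ * Real.log T ^ (-γ))) := by
      apply mul_le_mul hBg2 _ (by positivity) (by positivity)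
      exact mul_le_mul_of_nonneg_left h5 hCb
    have h7 : 0 ≤ K * c0 * (T ^ ρ * Real.log T ^ (-γ)) := by positivity
    have h8 : (K * T ^ ρ) * (Cb * (2 ^ γ * Real.log T ^ (-γ))) =
        2 ^ γ * K * Cb * (T ^ ρ * Real.log T ^ (-γ)) := by ring
    linarith

end Pool.Agent.J4H11.GC
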