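import Pool.Agent.J4H11.GC.Tow4
import Pool.Agent.J4H11.GC.Avg2
import Pool.Agent.J4H11.RC.Fin

/-!
# Assembly for the tower sieve; cyclic covers with an arbitrary direction of rank at least three
-/

set_option autoImplicit false

namespace Pool.Agent.J4H11.GC

open Finset MvPolynomial WeierstrassCurve Pool.Agent.H901R3.MS Module Pool.Agent.J4H11.RC

section
variable {r : ℕ} (i : Fin r) {a b : Fin r → ℤ}

theorem inf_points (hD : ∀ j, Disc (a j : ℚ) (b j : ℚ))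
    (hinf : ∀ j, Infinite (Pt (a j : ℚ) (b j : ℚ))) :
    ∀ j, ∃ R : Pt (a j : ℚ) (b j : ℚ), ∀ n : ℕ, 0 < n → n • R ≠ 0 := by
  intro j
  by_contra hcon
  push Not at hcon
  have hfg : AddGroup.FG (Pt (a j : ℚ) (b j : ℚ)) := t_M1 _ _ (hD j)
  have htor : IsAddTorsion (Pt (a j : ℚ) (b j : ℚ)) := by
    intro R
    obtain ⟨n, hn, h0⟩ := hcon R
    exact isOfFinAddOrder_iff_nsmul_eq_zero.2 ⟨n, hn, h0⟩
  have hfin := AddCommGroup.finite_of_fg_isAddTorsion (Pt (a j : ℚ) (b j : ℚ)) htor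
  exact (hinf j).not_finite hfin

theorem ball_of_obst (hD : ∀ j, Disc (a j : ℚ) (b j : ℚ))
    (hinf : ∀ j, Infinite (Pt (a j : ℚ) (b j : ℚ)))
    (hrk : 3 ≤ finrank ℤ (Pt (a i : ℚ) (b i : ℚ)))
    (Q u : ℕ) (hQ : 1 ≤ Q) (hu : Nat.Coprime u Q) {ι : Type}
    (Ψ : MvPolynomial (Bi i) ℤ) (hΨ0 : Ψ ≠ 0) (N : ℕ) (hN : 1 ≤ N)
    (Lf : ι → ((j : Fin r) → Pt (a j : ℚ) (b j : ℚ)) → Prop) (hOb : Obst i a b Ψ N Q u Lf)
    (γ : ℝ) (hγ : 0 ≤ γ) (hγ1 : γ ≤ 1) (hγN : (1 - 1 / (N : ℝ)) * (1000 : ℝ) ^ (2 * γ) ≤ 1) :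
    ∃ C : ℝ, 0 ≤ C ∧ ∀ (δ : ι) (T : ℝ), 2 ≤ T → ∀ c : (j : Fin r) → Pt (a j : ℚ) (b j : ℚ),
      {P : (j : Fin r) → Pt (a j : ℚ) (b j : ℚ) | (∀ j, hx (P j - c j) ≤ T ^ 2) ∧ Lf δ P}.Finite ∧
      ({P : (j : Fin r) → Pt (a j : ℚ) (b j : ℚ) |
        (∀ j, hx (P j - c j) ≤ T ^ 2) ∧ Lf δ P}.ncard : ℝ) ≤
        C * T ^ (∑ j, finrank ℤ (Pt (a j : ℚ) (b j : ℚ))) * Real.log T ^ (-γ) := by
  classical
  choose R hR using inf_points hD hinf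
  obtain ⟨f, hf⟩ := exists_linearIndependent_of_le_finrank hrk
  have hf' : ∀ m : Fin 3 → ℤ, m ≠ 0 → ∑ t, m t • f t ≠ 0 := by
    intro m hm h0
    rw [linearIndependent_iff'] at hf
    apply hm
    funext t
    exact hf univ m h0 t (mem_univ t)
  obtain ⟨Cb, hCb, L0, hL03, hbox⟩ := tower_count i hD f hf' R hR Q u hQ hu Ψ hΨ0 N hN Lf hOb γ
    hγ hγ1 hγN
  exact avg2 i hD Lf R f γ hγ Cb hCb L0 hL03 hbox

theorem main_int2 (hD : ∀ j, Disc (a j : ℚ) (b j : ℚ))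
    (hinf : ∀ j, Infinite (Pt (a j : ℚ) (b j : ℚ)))
    (hrk : 3 ≤ finrank ℤ (Pt (a i : ℚ) (b i : ℚ))) (ℓ : ℕ)
    (hℓ : ℓ.Prime) (F : MvPolynomial (Fin r × Fin 2) ℤ)
    {K : Type} [Field K] [CharZero K] (x y : Fin r → K)
    (hyc : ∀ j, y j ^ 2 = x j ^ 3 + (a j : K) * x j + (b j : K))
    (hF : aeval (pv x y) F = 0) (hW : aeval (pv x y) (Wp i a F) ≠ 0) :
    ∃ C : ℝ, 0 ≤ C ∧ ∀ (δ : ℚ) (T : ℝ), 2 ≤ T → ∀ c : (j : Fin r) → Pt (a j : ℚ) (b j : ℚ),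
      {P : (j : Fin r) → Pt (a j : ℚ) (b j : ℚ) | (∀ j, hx (P j - c j) ≤ T ^ 2) ∧
        Lft ℓ F δ P}.Finite ∧
      ({P : (j : Fin r) → Pt (a j : ℚ) (b j : ℚ) |
        (∀ j, hx (P j - c j) ≤ T ^ 2) ∧ Lft ℓ F δ P}.ncard : ℝ) ≤
        C * T ^ (∑ j, finrank ℤ (Pt (a j : ℚ) (b j : ℚ))) * Real.log T ^ (-(1 / 40) : ℝ) := by
  obtain ⟨Ω, _, _, _, x', y', g1, g2, g3, g4⟩ := generic_point i a b F x y hyc hF hW
  obtain ⟨Ψ, hΨ0, hΨ⟩ := elim i a b F x' y' g1 g2 g3 g4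
  have hOb := obst_cyc i a b hD F Ψ hΨ ℓ hℓ ℓ 1 (by
    intro p hp h1
    have h2 : 1 % ℓ = 1 := Nat.mod_eq_of_lt hℓ.one_lt
    rw [h2] at h1
    have := Nat.div_add_mod p ℓ
    rw [h1] at this
    exact ⟨p / ℓ, by omega⟩)
  refine ball_of_obst i hD hinf hrk ℓ 1 hℓ.one_le (Nat.coprime_one_left ℓ) Ψ hΨ0 3 (by norm_num)
    (fun (δ : ℚ) P => Lft ℓ F δ P) hOb (1 / 40) (by norm_num) (by norm_num) ?_
  have h1 : (1000 : ℝ) ^ (2 * (1 / 40) : ℝ) ≤ 3 / 2 := by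
    have h2 : (1000 : ℝ) ^ (2 * (1 / 40) : ℝ) ≤ ((3 / 2 : ℝ) ^ (20 : ℕ)) ^ (2 * (1 / 40) : ℝ) :=
      Real.rpow_le_rpow (by norm_num) (by norm_num) (by norm_num)
    have h3 : ((3 / 2 : ℝ) ^ (20 : ℕ)) ^ (2 * (1 / 40) : ℝ) = 3 / 2 := by
      rw [← Real.rpow_natCast, ← Real.rpow_mul (by norm_num)]
      norm_num
    rwa [h3] at h2
  have h4 : (1 - 1 / ((3 : ℕ) : ℝ)) = 2 / 3 := by norm_num
  rw [h4]
  linarith

theorem main_rat2 (hD : ∀ j, Disc (a j : ℚ) (b j : ℚ))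
    (hinf : ∀ j, Infinite (Pt (a j : ℚ) (b j : ℚ)))
    (hrk : 3 ≤ finrank ℤ (Pt (a i : ℚ) (b i : ℚ))) (ℓ : ℕ)
    (hℓ : ℓ.Prime) (n m : ℕ) (hn : ℓ ∣ n) (hm : ¬ ℓ ∣ m)
    (G H : MvPolynomial (Fin r × Fin 2) ℚ)
    {K : Type} [Field K] [CharZero K] [Algebra ℚ K] (x y : Fin r → K)
    (hyc : ∀ j, y j ^ 2 = x j ^ 3 + (a j : K) * x j + (b j : K))
    (hG : aeval (pv x y) G = 0) (hH : aeval (pv x y) H ≠ 0)
    (hW : aeval (pv x y) (Wp i (fun j => (a j : ℚ)) G) ≠ 0) :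
    ∃ C : ℝ, 0 ≤ C ∧ ∀ (δ : ℚ) (T : ℝ), 2 ≤ T → ∀ c : (j : Fin r) → Pt (a j : ℚ) (b j : ℚ),
      {P : (j : Fin r) → Pt (a j : ℚ) (b j : ℚ) | (∀ j, hx (P j - c j) ≤ T ^ 2) ∧
        ((∀ j, P j ≠ 0) → ∃ w : ℚ, δ * w ^ n =
          aeval (pv (fun j => (crd (P j)).1) (fun j => (crd (P j)).2)) G ^ m *
          aeval (pv (fun j => (crd (P j)).1) (fun j => (crd (P j)).2)) H)}.Finite ∧
      ({P : (j : Fin r) → Pt (a j : ℚ) (b j : ℚ) | (∀ j, hx (P j - c j) ≤ T ^ 2) ∧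
        ((∀ j, P j ≠ 0) → ∃ w : ℚ, δ * w ^ n =
          aeval (pv (fun j => (crd (P j)).1) (fun j => (crd (P j)).2)) G ^ m *
          aeval (pv (fun j => (crd (P j)).1) (fun j => (crd (P j)).2)) H)}.ncard : ℝ) ≤
        C * T ^ (∑ j, finrank ℤ (Pt (a j : ℚ) (b j : ℚ))) * Real.log T ^ (-(1 / 40) : ℝ) := by
  classical
  obtain ⟨s, k, hs⟩ : ∃ s k : ℕ, m * s = ℓ * k + 1 := by
    have hcop : Nat.Coprime m ℓ := ((Nat.Prime.coprime_iff_not_dvd hℓ).2 hm).symm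
    obtain ⟨s, -, hs⟩ := Nat.exists_mul_mod_eq_one_of_coprime hcop hℓ.one_lt
    refine ⟨s, m * s / ℓ, ?_⟩
    have := Nat.div_add_mod (m * s) ℓ
    rw [hs] at this
    exact this.symm
  obtain ⟨N, F, hN, hF⟩ := clear_den (G * H ^ s)
  have hae : ∀ (z : Fin r × Fin 2 → K), aeval z F = (N : K) * (aeval z G * aeval z H ^ s) := by
    intro z
    have h1 := congrArg (aeval z) hF
    rw [aeval_map_algebraMap] at h1
    rw [h1]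
    simp
  have haeQ : ∀ (z : Fin r × Fin 2 → ℚ), aeval z F = (N : ℚ) * (aeval z G * aeval z H ^ s) := by
    intro z
    have h1 := congrArg (aeval z) hF
    rw [aeval_map_algebraMap] at h1
    rw [h1]
    simp
  have hF0 : aeval (pv x y) F = 0 := by rw [hae, hG]; ring
  have hFW : aeval (pv x y) (Wp i a F) ≠ 0 := by
    have h1 : aeval (pv x y) (Wp i a F) =
        aeval (pv x y) (MvPolynomial.map (algebraMap ℤ ℚ) (Wp i a F)) :=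
      (aeval_map_algebraMap ℚ (pv x y) _).symm
    rw [h1, wp_map, hF, wp_mul, wp_C, wp_mul]
    simp only [zero_mul, zero_add, map_mul, map_add, hG, add_zero, aeval_C, map_pow]
    have hN' : algebraMap ℚ K (N : ℚ) ≠ 0 := by
      rw [Ne, map_eq_zero]
      exact_mod_cast hN
    exact mul_ne_zero hN' (mul_ne_zero hW (pow_ne_zero _ hH))
  obtain ⟨C, hC0, hC⟩ := main_int2 i hD hinf hrk ℓ hℓ F x y hyc hF0 hFW
  refine ⟨C, hC0, fun δ T hT c => ?_⟩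
  obtain ⟨h1, h2⟩ := hC (N * δ ^ s) T hT c
  have hsub : {P : (j : Fin r) → Pt (a j : ℚ) (b j : ℚ) | (∀ j, hx (P j - c j) ≤ T ^ 2) ∧
        ((∀ j, P j ≠ 0) → ∃ w : ℚ, δ * w ^ n =
          aeval (pv (fun j => (crd (P j)).1) (fun j => (crd (P j)).2)) G ^ m *
          aeval (pv (fun j => (crd (P j)).1) (fun j => (crd (P j)).2)) H)} ⊆
      {P : (j : Fin r) → Pt (a j : ℚ) (b j : ℚ) | (∀ j, hx (P j - c j) ≤ T ^ 2) ∧
        Lft ℓ F (N * δ ^ s) P} := by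
    rintro P ⟨hP, hl⟩
    refine ⟨hP, fun h0 => ?_⟩
    obtain ⟨w, hw⟩ := hl h0
    obtain ⟨w', hw'⟩ := kummer_red ℓ n m s k hℓ.ne_zero hn hs δ w _ _ hw
    refine ⟨w', ?_⟩
    rw [haeQ, ← hw']
    ring
  refine ⟨h1.subset hsub, le_trans ?_ h2⟩
  exact_mod_cast Set.ncard_le_ncard hsub h1

end

end Pool.Agent.J4H11.GC
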