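import Pool.Agent.J4H11.RC.Core1
import Pool.Agent.H341R2.WeilSharp

/-!
# Hasse's bound, from the sharp Weil bound for quadratic characters
-/

set_option autoImplicit false

namespace Pool.Agent.J4H11.GC

open Finset Polynomial WeierstrassCurve Pool.Agent.H901R3.MS Pool.Agent.J4H11.RC

section
variable {p : ℕ} [Fact p.Prime] {a b : ZMod p}

theorem cub_ns (c : ZMod p) (h : (ZMod p)[X]) : cub a b ≠ C c * h ^ 2 := by
  intro he
  have h1 : (cub a b).natDegree = 3 := by
    unfold cub
    compute_degree!
  have h2 := congrArg natDegree he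
  rw [h1] at h2
  by_cases hc : c = 0
  · rw [hc, C_0, zero_mul, natDegree_zero] at h2
    omega
  · rw [natDegree_C_mul hc, natDegree_pow] at h2
    omega

theorem card_eq (hD : Disc a b) : Nat.card (Pt a b) =
    Nat.card {z : ZMod p × ZMod p // z.2 ^ 2 = (cub a b).eval z.1} + 1 := by
  have hev : ∀ x : ZMod p, (cub a b).eval x = x ^ 3 + a * x + b := by
    intro x
    unfold cub
    simp
  let f : Option {z : ZMod p × ZMod p // z.2 ^ 2 = (cub a b).eval z.1} → Pt a b := fun o =>
    match o with
    | none => 0
    | some z => Affine.Point.some z.1.1 z.1.2 ((nonsingular_iff hD).2 (by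
        unfold Eqn
        rw [← hev]
        exact z.2))
  have hf : Function.Bijective f := by
    constructor
    · rintro (_ | ⟨⟨x, y⟩, hz⟩) (_ | ⟨⟨x', y'⟩, hz'⟩) h
      · rfl
      · exact absurd h (by intro h; cases h)
      · exact absurd h (by intro h; cases h)
      · simp only [f, Affine.Point.some.injEq] at h
        obtain ⟨rfl, rfl⟩ := h
        rfl
    · rintro (_ | ⟨x, y, h⟩)
      · exact ⟨none, rfl⟩
      · refine ⟨some ⟨(x, y), ?_⟩, rfl⟩
        rw [hev]
        exact eqn_of h
  rw [← Nat.card_congr (Equiv.ofBijective f hf), Finite.card_option]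

theorem hasse (hD : Disc a b) (hp2 : p ≠ 2) :
    |(Nat.card (Pt a b) : ℝ) - (p + 1)| ≤ 2 * √(p : ℝ) := by
  classical
  have hF : ringChar (ZMod p) ≠ 2 := by rwa [ZMod.ringChar_zmod_n]
  have h1 : Nat.card {z : ZMod p × ZMod p // z.2 ^ 2 = (cub a b).eval z.1} =
      ∑ x : ZMod p, (univ.filter (fun y : ZMod p => y ^ 2 = (cub a b).eval x)).card := by
    rw [Nat.card_eq_fintype_card, Fintype.card_subtype]
    rw [← card_sigma]
    refine card_bij (fun z _ => ⟨z.1, z.2⟩) ?_ ?_ ?_
    · intro z hz
      rw [mem_filter] at hz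
      rw [mem_sigma, mem_filter]
      exact ⟨mem_univ _, mem_univ _, hz.2⟩
    · rintro ⟨x, y⟩ _ ⟨x', y'⟩ _ h
      simp only [Sigma.mk.injEq, heq_eq_eq] at h
      exact Prod.ext h.1 h.2
    · rintro ⟨x, y⟩ h
      rw [mem_sigma, mem_filter] at h
      exact ⟨(x, y), mem_filter.2 ⟨mem_univ _, h.2.2⟩, rfl⟩
  have h2 : ∀ x : ZMod p, ((univ.filter (fun y : ZMod p => y ^ 2 = (cub a b).eval x)).card : ℤ) =
      quadraticChar (ZMod p) ((cub a b).eval x) + 1 := by
    intro x
    have h3 := quadraticChar_card_sqrts hF ((cub a b).eval x)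
    rw [← h3]
    congr 2
    ext y
    simp
  have h3 : ((Nat.card {z : ZMod p × ZMod p // z.2 ^ 2 = (cub a b).eval z.1} : ℕ) : ℝ) =
      (∑ x : ZMod p, (quadraticChar (ZMod p) ((cub a b).eval x) : ℝ)) + p := by
    have h4 : ((Nat.card {z : ZMod p × ZMod p // z.2 ^ 2 = (cub a b).eval z.1} : ℕ) : ℤ) =
        (∑ x : ZMod p, quadraticChar (ZMod p) ((cub a b).eval x)) + p := by
      rw [h1]
      push_cast
      rw [sum_congr rfl fun x _ => h2 x, sum_add_distrib, sum_const, card_univ, ZMod.card,
        nsmul_eq_mul, mul_one]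
    have h5 := congrArg (Int.cast : ℤ → ℝ) h4
    push_cast at h5
    exact h5
  have hdeg : (cub a b).natDegree = 3 := by
    unfold cub
    compute_degree!
  have h4 := Pool.Agent.H341R2.Sharp.weil_sharp hF (cub a b) (by omega) cub_ns
  rw [hdeg, ZMod.card] at h4
  rw [card_eq hD]
  push_cast
  rw [h3]
  have h5 : (∑ x : ZMod p, (quadraticChar (ZMod p) ((cub a b).eval x) : ℝ)) + p + 1 - (p + 1) =
      ∑ x : ZMod p, (quadraticChar (ZMod p) ((cub a b).eval x) : ℝ) := by ring
  rw [h5]
  refine h4.trans ?_
  norm_num

/-- at most four points of order two -/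
theorem card_two [Fintype (Pt a b)] [DecidableEq (Pt a b)] (hp2 : p ≠ 2) :
    (univ.filter (fun R : Pt a b => R + R = 0)).card ≤ 4 := by
  classical
  have hsub : ∀ R : Pt a b, R + R = 0 → R = 0 ∨ ∃ x h, (cub a b).eval x = 0 ∧
      R = Affine.Point.some x 0 h := by
    rintro (_ | ⟨x, y, h⟩) hR
    · left; rfl
    · right
      have h1 : (Affine.Point.some x y h : Pt a b) = -Affine.Point.some x y h :=
        eq_neg_of_add_eq_zero_left hR
      rw [Affine.Point.neg_some] at h1
      simp only [Affine.Point.some.injEq, true_and] at h1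
      have h2 : (CV a b).toAffine.negY x y = -y := by
        simp [Affine.negY, CV]
      rw [h2] at h1
      have h20 : (2 : ZMod p) ≠ 0 := by
        intro h0
        apply hp2
        have h3 : ((2 : ℕ) : ZMod p) = 0 := by exact_mod_cast h0
        rw [ZMod.natCast_eq_zero_iff] at h3
        exact (Nat.prime_dvd_prime_iff_eq Fact.out Nat.prime_two).1 h3
      have hy : y = 0 := by
        have h3 : 2 * y = 0 := by linear_combination h1
        rcases mul_eq_zero.1 h3 with h4 | h4
        · exact absurd h4 h20
        · exact h4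
      subst hy
      refine ⟨x, h, ?_, rfl⟩
      have h4 := eqn_of h
      unfold Eqn at h4
      have hev : (cub a b).eval x = x ^ 3 + a * x + b := by
        unfold cub
        simp
      rw [hev, ← h4]
      ring
  have hc0 : cub a b ≠ 0 := by
    intro h0
    have hdeg : (cub a b).natDegree = 3 := by
      unfold cub
      compute_degree!
    rw [h0, natDegree_zero] at hdeg
    omega
  let g : Pt a b → Option (ZMod p) := fun R =>
    match R with
    | Affine.Point.zero => none
    | Affine.Point.some x _ _ => some x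
  have h1 : (univ.filter (fun R : Pt a b => R + R = 0)).card ≤
      (insert none ((cub a b).roots.toFinset.image some) : Finset (Option (ZMod p))).card := by
    refine card_le_card_of_injOn g ?_ ?_
    · intro R hR
      rw [mem_coe, mem_filter] at hR
      rw [mem_coe, mem_insert, mem_image]
      rcases hsub R hR.2 with rfl | ⟨x, h, hx, rfl⟩
      · left; rfl
      · right
        exact ⟨x, by rw [Multiset.mem_toFinset, mem_roots hc0]; exact hx, rfl⟩
    · intro R hR R' hR' he
      rw [mem_coe, mem_filter] at hR hR'
      rcases hsub R hR.2 with rfl | ⟨x, h, hx, rfl⟩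
      · rcases hsub R' hR'.2 with rfl | ⟨x', h', hx', rfl⟩
        · rfl
        · exact absurd he (by intro h; cases h)
      · rcases hsub R' hR'.2 with rfl | ⟨x', h', hx', rfl⟩
        · exact absurd he (by intro h; cases h)
        · have : x = x' := by
            have h2 : (some x : Option (ZMod p)) = some x' := he
            exact Option.some.inj h2
          subst this
          rfl
  refine h1.trans ((card_insert_le _ _).trans ?_)
  have h2 : ((cub a b).roots.toFinset.image some : Finset (Option (ZMod p))).card ≤ 3 := by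
    refine card_image_le.trans ((Multiset.toFinset_card_le _).trans ((card_roots' _).trans ?_))
    unfold cub
    compute_degree!
  omega

end

end Pool.Agent.J4H11.GC
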