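import Pool.Agent.J4H11.GC.LocH
import Pool.Agent.J4H11.RC.LocB

/-!
# The local condition of the sieves, and cyclic covers
-/

set_option autoImplicit false

namespace Pool.Agent.J4H11.GC

open Finset MvPolynomial WeierstrassCurve Pool.Agent.H901R3.MS Pool.Agent.J4H11.RC

theorem locB_le (D ℓ : ℕ) (hℓ : 2 ≤ ℓ) (κ : ℝ) (hκ : 0 < κ) : ∃ T0 : ℕ, ∀ p : ℕ, T0 ≤ p →
    ∀ q : ℕ, (p : ℝ) ^ (1 / 2 + κ) ≤ q → locB D ℓ p q ≤ 2 / 3 * q := by
  set β : ℝ := 6 * (8 * D + 7) + 1 with hβ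
  set W : ℝ := (CW ℓ (8 * D * ℓ) : ℝ) with hW
  set ζ : ℝ := 8 * D + 7 with hζ
  have hW0 : 0 ≤ W := Nat.cast_nonneg _
  have hζ0 : 0 ≤ ζ := by positivity
  have hβ0 : 0 ≤ β := by positivity
  set M : ℝ := 4 * β + W + 4 + ζ with hM
  have hM0 : 0 < M := by positivity
  have h1 : Filter.Tendsto (fun t : ℕ => M * (t : ℝ) ^ (-κ)) Filter.atTop (nhds (M * 0)) :=
    ((tendsto_rpow_neg_atTop hκ).comp tendsto_natCast_atTop_atTop).const_mul M
  rw [mul_zero] at h1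
  have h2 := h1.eventually (ge_mem_nhds (show (0 : ℝ) < 1 / 144 by norm_num))
  obtain ⟨T1, hT1⟩ := Filter.eventually_atTop.1 h2
  refine ⟨max T1 (max 1 (⌈(12 * ζ) ^ 2⌉₊)), fun t ht q hq => ?_⟩
  have ht1 : T1 ≤ t := (le_max_left _ _).trans ht
  have ht2 : 1 ≤ t := (le_max_left _ _).trans ((le_max_right _ _).trans ht)
  have ht3 : (12 * ζ) ^ 2 ≤ (t : ℝ) := by
    have := (le_max_right _ _).trans ((le_max_right _ _).trans ht)
    exact (Nat.le_ceil _).trans (by exact_mod_cast this)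
  have htR : (1 : ℝ) ≤ t := by exact_mod_cast ht2
  have ht0 : (0 : ℝ) < t := by linarith
  have hq0 : (0 : ℝ) ≤ q := Nat.cast_nonneg _
  set s : ℝ := √(t : ℝ) with hs
  have hs0 : 0 ≤ s := Real.sqrt_nonneg _
  have hs1 : 1 ≤ s := by rw [hs]; exact Real.one_le_sqrt.2 htR
  have hss : s * s = t := Real.mul_self_sqrt ht0.le
  set u : ℝ := (t : ℝ) ^ (-κ) with hu
  have hu0 : 0 < u := Real.rpow_pos_of_pos ht0 _
  have hu1 : u ≤ 1 := by
    rw [hu]
    exact Real.rpow_le_one_of_one_le_of_nonpos htR (by linarith)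
  have hsq : s ≤ q * u := by
    have h3 : (t : ℝ) ^ (1 / 2 + κ) * u = s := by
      rw [hu, hs, ← Real.rpow_add ht0, Real.sqrt_eq_rpow]
      congr 1
      ring
    rw [← h3]
    exact mul_le_mul_of_nonneg_right hq hu0.le
  have hsq' : s ≤ q := hsq.trans (by nlinarith)
  have hMu : M * u ≤ 1 / 144 := hT1 t ht1
  have hℓR : (2 : ℝ) ≤ ℓ := by exact_mod_cast hℓ
  have hinner : β * ((t : ℝ) + 1 + 2 * s) + q * (W * s + 2 + 2 * s) + 2 * q * ζ / ℓ ≤
      ((q : ℝ) / 12) ^ 2 := by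
    have e1 : β * ((t : ℝ) + 1 + 2 * s) ≤ 4 * β * (q * q * u) := by
      have h3 : (t : ℝ) ≤ q * q * u := by
        calc (t : ℝ) = s * s := hss.symm
          _ ≤ q * (q * u) := mul_le_mul hsq' hsq hs0 hq0
          _ = q * q * u := by ring
      have h4 : (t : ℝ) + 1 + 2 * s ≤ 4 * t := by nlinarith
      calc β * ((t : ℝ) + 1 + 2 * s) ≤ β * (4 * t) := mul_le_mul_of_nonneg_left h4 hβ0
        _ ≤ β * (4 * (q * q * u)) := by
            apply mul_le_mul_of_nonneg_left _ hβ0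
            linarith
        _ = _ := by ring
    have hqs : (q : ℝ) * s ≤ q * q * u := by
      calc (q : ℝ) * s ≤ q * (q * u) := mul_le_mul_of_nonneg_left hsq hq0
        _ = _ := by ring
    have e2 : (q : ℝ) * (W * s + 2 + 2 * s) ≤ (W + 4) * (q * q * u) := by
      have h4 : W * s + 2 + 2 * s ≤ (W + 4) * s := by nlinarith
      calc (q : ℝ) * (W * s + 2 + 2 * s) ≤ q * ((W + 4) * s) := mul_le_mul_of_nonneg_left h4 hq0
        _ = (W + 4) * (q * s) := by ring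
        _ ≤ _ := mul_le_mul_of_nonneg_left hqs (by linarith)
    have e3 : 2 * (q : ℝ) * ζ / ℓ ≤ ζ * (q * q * u) := by
      rw [div_le_iff₀ (by linarith)]
      have h3 : (q : ℝ) ≤ q * q * u := by
        calc (q : ℝ) = q * 1 := by ring
          _ ≤ q * s := mul_le_mul_of_nonneg_left hs1 hq0
          _ ≤ _ := hqs
      have h4 : ζ * q ≤ ζ * (q * q * u) := mul_le_mul_of_nonneg_left h3 hζ0
      have h5 : 0 ≤ ζ * (q * q * u) := by positivity
      nlinarith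
    have e4 : 4 * β * (q * q * u) + (W + 4) * (q * q * u) + ζ * (q * q * u) =
        (M * u) * (q * q) := by
      rw [hM]; ring
    have e5 : (M * u) * ((q : ℝ) * q) ≤ 1 / 144 * (q * q) :=
      mul_le_mul_of_nonneg_right hMu (by positivity)
    nlinarith
  have hsqrt : √(β * ((t : ℝ) + 1 + 2 * s) + q * (W * s + 2 + 2 * s) + 2 * q * ζ / ℓ) ≤
      (q : ℝ) / 12 := by
    rw [Real.sqrt_le_left (by positivity)]
    exact hinner
  have hζq : ζ ≤ (q : ℝ) / 12 := by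
    have h3 : 12 * ζ ≤ s := Real.le_sqrt_of_sq_le ht3
    linarith
  have hqℓ : (q : ℝ) / ℓ ≤ q / 2 := div_le_div_of_nonneg_left hq0 (by norm_num) hℓR
  unfold locB
  change (q : ℝ) / ℓ + √(β * ((t : ℝ) + 1 + 2 * s) + q * (W * s + 2 + 2 * s) +
    2 * q * ζ / ℓ) + ζ ≤ _
  linarith

section
variable {r : ℕ} (i : Fin r) (a b : Fin r → ℤ)

/-- The local condition at the prime `p`: in the direction `i`, over the points of the base where
`Ψ ≠ 0`, at most the proportion `(N - 1) / N` of the points of every coset of a large subgroup is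
in `S`. -/
def LocOK (Ψ : MvPolynomial (Bi i) ℤ) (N : ℕ) (κ : ℝ) (p : ℕ) [Fact p.Prime]
    (S : Set ((j : Fin r) → Pt (a j : ZMod p) (b j : ZMod p))) : Prop :=
  ∀ Q : (j : Fin r) → Pt (a j : ZMod p) (b j : ZMod p), (∀ j, j ≠ i → Q j ≠ 0) →
    aeval (fun j : Bi i => (crd (Q j)).1) Ψ ≠ 0 →
    ∀ (H : AddSubgroup (Pt (a i : ZMod p) (b i : ZMod p))) (P0 : Pt (a i : ZMod p) (b i : ZMod p)),
      (p : ℝ) ^ (1 / 2 + κ) ≤ (Nat.card H : ℝ) →
      N * {h : Pt (a i : ZMod p) (b i : ZMod p) | h ∈ H ∧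
        (P0 + h = 0 ∨ Function.update Q i (P0 + h) ∈ S)}.ncard ≤ (N - 1) * Nat.card H

/-- the points modulo `p` at which `e ⁻¹ F` is an `ℓ`-th power -/
def cycS (ℓ : ℕ) (F : MvPolynomial (Fin r × Fin 2) ℤ) (p : ℕ) [Fact p.Prime] (e : ZMod p) :
    Set ((j : Fin r) → Pt (a j : ZMod p) (b j : ZMod p)) :=
  {Q | ∃ w : ZMod p, e * w ^ ℓ = aeval (pv (fun j => (crd (Q j)).1) (fun j => (crd (Q j)).2)) F}

theorem pv_update {p : ℕ} [Fact p.Prime] (Q : (j : Fin r) → Pt (a j : ZMod p) (b j : ZMod p))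
    (R : Pt (a i : ZMod p) (b i : ZMod p)) :
    pv (fun j => (crd (Function.update Q i R j)).1) (fun j => (crd (Function.update Q i R j)).2) =
    pv (ext i (fun j : Bi i => (crd (Q j)).1) (crd R).1)
      (ext i (fun j : Bi i => (crd (Q j)).2) (crd R).2) := by
  funext u
  obtain ⟨j, e⟩ := u
  by_cases hj : j = i
  · subst hj
    rcases fin2 e with rfl | rfl
    · rw [pv_zero, pv_zero, ext_self, Function.update_self]
    · rw [pv_one, pv_one, ext_self, Function.update_self]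
  · rcases fin2 e with rfl | rfl
    · rw [pv_zero, pv_zero, Function.update_of_ne hj]
      exact (ext_ne i (fun j : Bi i => (crd (Q j)).1) _ ⟨j, hj⟩).symm
    · rw [pv_one, pv_one, Function.update_of_ne hj]
      exact (ext_ne i (fun j : Bi i => (crd (Q j)).2) _ ⟨j, hj⟩).symm

theorem loc_cyc0 (F : MvPolynomial (Fin r × Fin 2) ℤ) (Ψ : MvPolynomial (Bi i) ℤ)
    (hΨ : ElimP i a b F Ψ) (ℓ : ℕ) (hℓ : ℓ.Prime) (κ : ℝ) (p : ℕ) [Fact p.Prime]
    (K : Type) [Field K] [IsAlgClosed K] [Algebra (ZMod p) K] [Algebra.IsAlgebraic (ZMod p) K]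
    (hasy0 : ∀ q : ℕ, (p : ℝ) ^ (1 / 2 + κ) ≤ q → locB F.totalDegree ℓ p q ≤ 2 / 3 * q)
    (hp2 : p ≠ 2) (hℓp : ℓ ∣ p - 1) (hDp : Disc (a i : ZMod p) (b i : ZMod p)) (e : ZMod p)
    (he : e ≠ 0) : LocOK i a b Ψ 3 κ p (cycS a b ℓ F p e) := by
  intro Q hQ hQΨ H P0 hH
  set xb : Bi i → ZMod p := fun j => (crd (Q j)).1 with hxb
  set yb : Bi i → ZMod p := fun j => (crd (Q j)).2 with hyb
  have hcurve : ∀ j, yb j ^ 2 = xb j ^ 3 + (a j : ZMod p) * xb j + (b j : ZMod p) := fun j =>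
    crd_eqn _ (hQ j j.2)
  obtain ⟨xS, yS, h1, h2, h3⟩ := hΨ K (fun j => algebraMap (ZMod p) K (xb j))
    (fun j => algebraMap (ZMod p) K (yb j)) (fun j => by
      have h4 := congrArg (algebraMap (ZMod p) K) (hcurve j)
      simp only [map_add, map_mul, map_pow, map_intCast] at h4
      exact h4) (by
      have h4 : aeval (fun j => algebraMap (ZMod p) K (xb j)) Ψ =
          algebraMap (ZMod p) K (aeval xb Ψ) := by
        have h5 : (aeval (fun j => algebraMap (ZMod p) K (xb j)) :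
            MvPolynomial (Bi i) ℤ →ₐ[ℤ] K).toRingHom =
            (algebraMap (ZMod p) K).comp (aeval xb : MvPolynomial (Bi i) ℤ →ₐ[ℤ] _).toRingHom := by
          apply MvPolynomial.ringHom_ext
          · intro m
            simp
          · intro j
            simp
        exact congrArg (fun g : MvPolynomial (Bi i) ℤ →+* K => g Ψ) h5
      rw [h4]
      exact (map_ne_zero _).2 hQΨ)
  set G := C e⁻¹ * spec i F xb yb with hG
  have hz : SimpleZero ((a i : ℤ) : ZMod p) ((b i : ℤ) : ZMod p) G xS yS :=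
    simpleZero_spec i a b F xb yb xS yS h1 h2 h3 e⁻¹ (inv_ne_zero he)
  have hGD : G.totalDegree ≤ F.totalDegree := by
    refine (totalDegree_mul _ _).trans ?_
    rw [totalDegree_C, zero_add]
    exact spec_deg i F xb yb
  have key := loc_countH (K := K) hDp hp2 G F.totalDegree ℓ hGD hℓ hℓp xS yS hz H P0
  have hasy := hasy0 (Nat.card H) hH
  have hfin : Finite (Pt (a i : ZMod p) (b i : ZMod p)) := finite_pt _ _
  have hsub : {h : Pt (a i : ZMod p) (b i : ZMod p) | h ∈ H ∧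
        (P0 + h = 0 ∨ Function.update Q i (P0 + h) ∈ cycS a b ℓ F p e)} ⊆
      {h : Pt (a i : ZMod p) (b i : ZMod p) | h ∈ H ∧ (P0 + h = 0 ∨
      ∃ w : ZMod p, w ^ ℓ = gv (K := ZMod p) G (P0 + h))} := by
    rintro h ⟨hh, h0⟩
    refine ⟨hh, ?_⟩
    by_cases h00 : P0 + h = 0
    · exact Or.inl h00
    · right
      rcases h0 with h0 | ⟨w, hw⟩
      · exact absurd h0 h00
      · refine ⟨w, ?_⟩
        rw [gv_crd G _ h00, hG, map_mul, aeval_C, spec_eval]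
        simp only [Algebra.algebraMap_self, RingHom.id_apply]
        rw [pv_update] at hw
        rw [← hw, ← mul_assoc, inv_mul_cancel₀ he, one_mul]
  have h5 : (({h : Pt (a i : ZMod p) (b i : ZMod p) | h ∈ H ∧
        (P0 + h = 0 ∨ Function.update Q i (P0 + h) ∈ cycS a b ℓ F p e)}.ncard : ℕ) : ℝ) ≤
      2 / 3 * (Nat.card H : ℝ) := by
    refine le_trans ?_ (key.trans hasy)
    exact_mod_cast Set.ncard_le_ncard hsub (Set.toFinite _)
  have h6 : (3 : ℝ) * ({h : Pt (a i : ZMod p) (b i : ZMod p) | h ∈ H ∧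
        (P0 + h = 0 ∨ Function.update Q i (P0 + h) ∈ cycS a b ℓ F p e)}.ncard : ℕ) ≤
      2 * (Nat.card H : ℝ) := by linarith
  have h7 : 3 * {h : Pt (a i : ZMod p) (b i : ZMod p) | h ∈ H ∧
        (P0 + h = 0 ∨ Function.update Q i (P0 + h) ∈ cycS a b ℓ F p e)}.ncard ≤
      2 * Nat.card H := by exact_mod_cast h6
  exact h7

theorem loc_cyc (F : MvPolynomial (Fin r × Fin 2) ℤ) (Ψ : MvPolynomial (Bi i) ℤ)
    (hΨ : ElimP i a b F Ψ) (ℓ : ℕ) (hℓ : ℓ.Prime) (κ : ℝ) (hκ : 0 < κ) :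
    ∃ T0 : ℕ, ∀ p : ℕ, T0 ≤ p → ∀ (_ : Fact p.Prime), ℓ ∣ p - 1 →
      Disc (a i : ZMod p) (b i : ZMod p) → ∀ e : ZMod p, e ≠ 0 →
        LocOK i a b Ψ 3 κ p (cycS a b ℓ F p e) := by
  obtain ⟨T0, hT0⟩ := locB_le F.totalDegree ℓ hℓ.two_le κ hκ
  refine ⟨max T0 3, fun p hp hpp hℓp hDp e he => ?_⟩
  have hp2 : p ≠ 2 := by
    have := (le_max_right _ _).trans hp
    omega
  exact loc_cyc0 i a b F Ψ hΨ ℓ hℓ κ p (AlgebraicClosure (ZMod p))
    (hT0 p ((le_max_left _ _).trans hp)) hp2 hℓp hDp e he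

/-- a family of conditions on points of `A(ℚ)` with local obstructions at the primes `p ≡ u mod Q` -/
def Obst {ι : Type} (Ψ : MvPolynomial (Bi i) ℤ) (N Q u : ℕ)
    (Lf : ι → ((j : Fin r) → Pt (a j : ℚ) (b j : ℚ)) → Prop) : Prop :=
  ∀ κ : ℝ, 0 < κ → ∃ T0 : ℕ, ∀ p : ℕ, T0 ≤ p → ∀ (_ : Fact p.Prime), p % Q = u % Q →
    ∀ (ld : LD a b p) (δ : ι), ∃ S : Set ((j : Fin r) → Pt (a j : ZMod p) (b j : ZMod p)),
      (∀ P, Lf δ P → (∀ j, ld.red j (P j) ≠ 0) → (fun j => ld.red j (P j)) ∈ S) ∧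
      LocOK i a b Ψ N κ p S

theorem obst_cyc (hD : ∀ j, Disc (a j : ℚ) (b j : ℚ)) (F : MvPolynomial (Fin r × Fin 2) ℤ)
    (Ψ : MvPolynomial (Bi i) ℤ) (hΨ : ElimP i a b F Ψ) (ℓ : ℕ) (hℓ : ℓ.Prime) (Q u : ℕ)
    (hQu : ∀ p : ℕ, p.Prime → p % Q = u % Q → ℓ ∣ p - 1) :
    Obst i a b Ψ 3 Q u (fun (δ : ℚ) P => Lft ℓ F δ P) := by
  intro κ hκ
  obtain ⟨T0, hT0⟩ := loc_cyc i a b F Ψ hΨ ℓ hℓ κ hκ
  refine ⟨max T0 ((2 * (4 * a i ^ 3 + 27 * b i ^ 2)).natAbs + 1), fun p hp hpp hpQ ld δ => ?_⟩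
  obtain ⟨e, he, hLf⟩ := lft_red ℓ hℓ.one_le F δ ld.v (fun j => ld.red j) ld.hred
  refine ⟨cycS a b ℓ F p e, ?_, ?_⟩
  · intro P hP hne
    exact hLf P hP hne
  · refine hT0 p ((le_max_left _ _).trans hp) hpp (hQu p hpp.out hpQ) ?_ e he
    apply disc_int (a i) (b i) (hD i)
    have := (le_max_right _ _).trans hp
    omega

end

end Pool.Agent.J4H11.GC
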