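import Pool.Agent.J4H11.GC.Hs
import Pool.Agent.J4H11.RC.Loc2

/-!
# `ℓ`-th power values of a function along the cosets of any subgroup of `E(F_p)`: the count
-/

set_option autoImplicit false

namespace Pool.Agent.J4H11.GC

open Finset MvPolynomial WeierstrassCurve Pool.Agent.H901R3.MS Pool.Agent.J4H11.RC

section
variable {p : ℕ} [Fact p.Prime] {a b : ZMod p}

/-- the exceptional translations -/
theorem bad_card4 [Fintype (Pt a b)] [DecidableEq (Pt a b)] {K : Type} [Field K]
    [Algebra (ZMod p) K] [DecidableEq K] (hD : Disc a b) (hp2 : p ≠ 2)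
    (G : MvPolynomial (Fin 2) (ZMod p)) (D : ℕ) (hG : G.totalDegree ≤ D)
    (xS yS : K) (hz : SimpleZero a b G xS yS)
    (S : Pt (algebraMap (ZMod p) K a) (algebraMap (ZMod p) K b)) :
    ((({0} : Finset (Pt a b)) ∪ univ.filter (fun h => gv G (S - emb K hD h) = 0)) ∪
      (univ.filter (fun h => gv G (emb K hD h - S) = 0) ∪
        univ.filter (fun h => gv G (emb K hD h + emb K hD h - S) = 0))).card ≤
      6 * (8 * D + 7) + 1 := by
  classical
  obtain ⟨hfin, hcard⟩ := gv_zeros G xS yS hz D hG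
  set Z : Set (Pt (algebraMap (ZMod p) K a) (algebraMap (ZMod p) K b)) := {P | gv G P = 0} with hZ
  rw [Set.ncard_eq_toFinset_card Z hfin] at hcard
  have hinj := emb_inj (K := K) hD
  have c1 : (univ.filter (fun h => gv G (S - emb K hD h) = 0)).card ≤ 8 * D + 7 := by
    refine le_trans ?_ hcard
    refine card_le_card_of_injOn (fun h => S - emb K hD h) ?_ ?_
    · intro h hh
      rw [mem_coe, mem_filter] at hh
      rw [mem_coe, Set.Finite.mem_toFinset]
      exact hh.2
    · intro h _ h' _ he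
      exact hinj (sub_right_injective he)
  have c2 : (univ.filter (fun h => gv G (emb K hD h - S) = 0)).card ≤ 8 * D + 7 := by
    refine le_trans ?_ hcard
    refine card_le_card_of_injOn (fun h => emb K hD h - S) ?_ ?_
    · intro h hh
      rw [mem_coe, mem_filter] at hh
      rw [mem_coe, Set.Finite.mem_toFinset]
      exact hh.2
    · intro h _ h' _ he
      exact hinj (sub_left_injective he)
  have c3 : (univ.filter (fun h => gv G (emb K hD h + emb K hD h - S) = 0)).card ≤
      4 * (8 * D + 7) := by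
    refine (card_le_mul_card_image_of_maps_to (f := fun h => emb K hD h + emb K hD h - S)
      (t := hfin.toFinset) ?_ 4 ?_).trans (Nat.mul_le_mul_left 4 hcard)
    · intro h hh
      rw [mem_filter] at hh
      rw [Set.Finite.mem_toFinset]
      exact hh.2
    · intro z _
      set F := (univ.filter (fun h => gv G (emb K hD h + emb K hD h - S) = 0)).filter
        (fun h => emb K hD h + emb K hD h - S = z) with hF
      by_cases hFe : F.Nonempty
      · obtain ⟨h0, hh0⟩ := hFe
        rw [hF, mem_filter] at hh0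
        refine le_trans ?_ (card_two (a := a) (b := b) hp2)
        refine card_le_card_of_injOn (fun h => h - h0) ?_ ?_
        · intro h hh
          rw [mem_coe, hF, mem_filter] at hh
          rw [mem_coe, mem_filter]
          refine ⟨mem_univ _, ?_⟩
          have h2 : emb K hD h + emb K hD h = emb K hD h0 + emb K hD h0 :=
            sub_left_injective (hh.2.trans hh0.2.symm)
          rw [← map_add, ← map_add] at h2
          have h3 := hinj h2
          have h4 : h - h0 + (h - h0) = (h + h) - (h0 + h0) := by abel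
          rw [h4, h3, sub_self]
        · intro h _ h' _ he
          exact sub_left_injective he
      · rw [not_nonempty_iff_eq_empty] at hFe
        rw [hFe, card_empty]
        omega
  have c0 : ({0} : Finset (Pt a b)).card = 1 := card_singleton _
  have d1 := card_union_le ((({0} : Finset (Pt a b)) ∪
      univ.filter (fun h => gv G (S - emb K hD h) = 0)))
      (univ.filter (fun h => gv G (emb K hD h - S) = 0) ∪
        univ.filter (fun h => gv G (emb K hD h + emb K hD h - S) = 0))
  have d2 := card_union_le ({0} : Finset (Pt a b))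
      (univ.filter (fun h => gv G (S - emb K hD h) = 0))
  have d3 := card_union_le (univ.filter (fun h => gv G (emb K hD h - S) = 0))
      (univ.filter (fun h => gv G (emb K hD h + emb K hD h - S) = 0))
  omega

/-- the bound of the local count -/
noncomputable def locB (D ℓ p q : ℕ) : ℝ :=
  (q : ℝ) / ℓ + Real.sqrt ((6 * (8 * D + 7) + 1) * ((p : ℝ) + 1 + 2 * √(p : ℝ)) +
        q * (CW ℓ (8 * D * ℓ) * √(p : ℝ) + 2 + 2 * √(p : ℝ)) + 2 * q * (8 * D + 7) / ℓ) +
        (8 * D + 7)

theorem loc_countH {K : Type} [Field K] [IsAlgClosed K] [Algebra (ZMod p) K]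
    [Algebra.IsAlgebraic (ZMod p) K] (hD : Disc a b) (hp2 : p ≠ 2)
    (G : MvPolynomial (Fin 2) (ZMod p)) (D ℓ : ℕ) (hG : G.totalDegree ≤ D) (hℓ : ℓ.Prime)
    (hℓp : ℓ ∣ p - 1) (xS yS : K) (hz : SimpleZero a b G xS yS)
    (H : AddSubgroup (Pt a b)) (P0 : Pt a b) :
    (({h : Pt a b | h ∈ H ∧ (P0 + h = 0 ∨
      ∃ w : ZMod p, w ^ ℓ = gv (K := ZMod p) G (P0 + h))}.ncard : ℕ) : ℝ) ≤
      locB D ℓ p (Nat.card H) := by
  classical
  have : Finite (Pt a b) := finite_pt a b
  have := Fintype.ofFinite (Pt a b)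
  have hp := (Fact.out : p.Prime)
  have hp1 : 0 < p - 1 := by have := hp.two_le; omega
  obtain ⟨m, hm⟩ := id hℓp
  have hmd : (p - 1) / ℓ = m := by rw [hm]; exact Nat.mul_div_cancel_left _ hℓ.pos
  have hm0 : m ≠ 0 := by
    rintro rfl
    omega
  have hD' := disc_map (K := K) hD
  have hS : (CV (algebraMap (ZMod p) K a) (algebraMap (ZMod p) K b)).toAffine.Nonsingular xS yS :=
    (nonsingular_iff hD').2 hz.1
  set S : Pt (algebraMap (ZMod p) K a) (algebraMap (ZMod p) K b) := Affine.Point.some xS yS hS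
    with hSdef
  set q : ℕ := Nat.card H with hq
  have hHcard : (univ.filter (· ∈ H)).card = q := by
    rw [hq, Nat.card_eq_fintype_card, Fintype.card_subtype]
  -- zeros over `F_p`
  have hzeros : (univ.filter (fun R : Pt a b => phi ℓ G R = 0)).card ≤ 8 * D + 7 := by
    obtain ⟨hfin, hc⟩ := gv_zeros G xS yS hz D hG
    rw [Set.ncard_eq_toFinset_card _ hfin] at hc
    refine le_trans ?_ hc
    refine card_le_card_of_injOn (fun h => emb K hD h) ?_ ?_
    · intro R hR
      rw [mem_coe, mem_filter] at hR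
      rw [mem_coe, Set.Finite.mem_toFinset]
      show gv G (emb K hD R) = 0
      have h1 : gv (K := ZMod p) G R = 0 := by
        have h2 := hR.2
        unfold phi at h2
        rw [hmd] at h2
        exact pow_eq_zero_iff hm0 |>.1 h2
      rw [gv_emb, h1, map_zero]
    · intro h _ h' _ he
      exact emb_inj hD he
  -- roots of unity
  set X : Finset (ZMod p) := univ.filter (fun z => z ^ ℓ = 1) with hX
  have hXc : X.card ≤ ℓ := by
    have h1 : X ⊆ (Polynomial.X ^ ℓ - Polynomial.C (1 : ZMod p)).roots.toFinset := by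
      intro z hz
      rw [hX, mem_filter] at hz
      rw [Multiset.mem_toFinset, Polynomial.mem_roots (Polynomial.X_pow_sub_C_ne_zero hℓ.pos _)]
      simp [hz.2]
    refine (card_le_card h1).trans ((Multiset.toFinset_card_le _).trans
      ((Polynomial.card_roots' _).trans ?_))
    rw [Polynomial.natDegree_X_pow_sub_C]
  have hX0 : (0 : ZMod p) ∉ X := by
    rw [hX, mem_filter]
    rintro ⟨-, h⟩
    rw [zero_pow hℓ.ne_zero] at h
    exact zero_ne_one h
  have hφX : ∀ R : Pt a b, phi ℓ G R = 0 ∨ phi ℓ G R ∈ X := by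
    intro R
    by_cases h : gv (K := ZMod p) G R = 0
    · left
      rw [phi, h, hmd, zero_pow hm0]
    · right
      rw [hX, mem_filter]
      refine ⟨mem_univ _, ?_⟩
      rw [phi, hmd, ← pow_mul, mul_comm, ← hm, ZMod.pow_card_sub_one_eq_one h]
  set Bad : Finset (Pt a b) := ((({0} : Finset (Pt a b)) ∪
      univ.filter (fun h => gv G (S - emb K hD h) = 0)) ∪
      (univ.filter (fun h => gv G (emb K hD h - S) = 0) ∪
        univ.filter (fun h => gv G (emb K hD h + emb K hD h - S) = 0))) with hBad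
  have hBadc : Bad.card ≤ 6 * (8 * D + 7) + 1 := bad_card4 hD hp2 G D hG xS yS hz S
  set A : ℝ := (Fintype.card (Pt a b) : ℝ) with hA
  have hcardA := abs_le.1 (hasse hD hp2)
  rw [Nat.card_eq_fintype_card, ← hA] at hcardA
  have h1X : (1 : ZMod p) ∈ X := by
    rw [hX, mem_filter]
    exact ⟨mem_univ _, one_pow _⟩
  have hℓ1 : (1 : ℝ) ≤ ℓ := by exact_mod_cast hℓ.one_le
  have hℓ0 : (0 : ℝ) < ℓ := by linarith
  have hsq : 0 ≤ √(p : ℝ) := Real.sqrt_nonneg _
  have key := abs_lemma (phi ℓ G) X ℓ hℓ.pos hXc hX0 hφX H (6 * (8 * D + 7) + 1)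
    (CW ℓ (8 * D * ℓ) * √(p : ℝ) + 2 + 2 * √(p : ℝ)) (8 * D + 7) q (by rw [hHcard]) Bad
    (by exact_mod_cast hBadc) (by positivity)
    (by
      intro h hh hhB
      rw [← hA]
      have hhB' : h ≠ 0 ∧ gv G (S - emb K hD h) ≠ 0 ∧ gv G (emb K hD h - S) ≠ 0 ∧
          gv G (emb K hD h + emb K hD h - S) ≠ 0 := by
        refine ⟨?_, ?_, ?_, ?_⟩
        · intro h0
          apply hhB
          rw [hBad, mem_union, mem_union, mem_singleton]
          exact Or.inl (Or.inl h0)
        · intro h0
          apply hhB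
          rw [hBad, mem_union, mem_union, mem_filter]
          exact Or.inl (Or.inr ⟨mem_univ _, h0⟩)
        · intro h0
          apply hhB
          rw [hBad, mem_union, mem_union (s := filter (fun h => gv G (emb K hD h - S) = 0) univ),
            mem_filter]
          exact Or.inr (Or.inl ⟨mem_univ _, h0⟩)
        · intro h0
          apply hhB
          rw [hBad, mem_union, mem_union (s := filter (fun h => gv G (emb K hD h - S) = 0) univ),
            mem_filter (p := fun h => gv G (emb K hD h + emb K hD h - S) = 0)]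
          exact Or.inr (Or.inr ⟨mem_univ _, h0⟩)
      have h1 := corr_count hD hp2 G D ℓ hG hℓ hℓp xS yS hz hS h hhB'.1 hhB'.2.1 hhB'.2.2.1
        hhB'.2.2.2
      refine h1.trans ?_
      have h2 : ((p : ℝ) + 1) / ℓ ≤ A / ℓ + 2 * √(p : ℝ) := by
        have h3 : ((p : ℝ) + 1) / ℓ ≤ (A + 2 * √(p : ℝ)) / ℓ :=
          div_le_div_of_nonneg_right (by linarith [hcardA.1]) hℓ0.le
        have h4 : (2 * √(p : ℝ)) / ℓ ≤ 2 * √(p : ℝ) := div_le_self (by positivity) hℓ1
        have h5 : (A + 2 * √(p : ℝ)) / ℓ = A / ℓ + (2 * √(p : ℝ)) / ℓ := add_div _ _ _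
        rw [h5] at h3
        linarith
      linarith)
    (by exact_mod_cast hzeros) P0 1 h1X
  have hkey2 : (((univ.filter (· ∈ H)).filter (fun h => phi ℓ G (P0 + h) = 1)).card : ℝ) ≤
      (q : ℝ) / ℓ + Real.sqrt ((6 * (8 * D + 7) + 1) * ((p : ℝ) + 1 + 2 * √(p : ℝ)) +
        q * (CW ℓ (8 * D * ℓ) * √(p : ℝ) + 2 + 2 * √(p : ℝ)) + 2 * q * (8 * D + 7) / ℓ) := by
    refine key.trans ?_
    have h1 : (6 * (8 * (D : ℝ) + 7) + 1) * A ≤
        (6 * (8 * D + 7) + 1) * ((p : ℝ) + 1 + 2 * √(p : ℝ)) := by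
      apply mul_le_mul_of_nonneg_left _ (by positivity)
      linarith [hcardA.2]
    have h2 := Real.sqrt_le_sqrt (add_le_add_left (add_le_add_left h1
      (q * (CW ℓ (8 * D * ℓ) * √(p : ℝ) + 2 + 2 * √(p : ℝ)))) (2 * q * (8 * D + 7) / ℓ))
    have h3 : (6 * (8 * (D : ℝ) + 7) + 1) * (Fintype.card (Pt a b) : ℝ) =
      (6 * (8 * (D : ℝ) + 7) + 1) * A := rfl
    rw [h3]
    linarith
  have hsplit : {h : Pt a b | h ∈ H ∧ (P0 + h = 0 ∨
      ∃ w : ZMod p, w ^ ℓ = gv (K := ZMod p) G (P0 + h))} ⊆
      (((univ.filter (· ∈ H)).filter (fun h => phi ℓ G (P0 + h) = 1)) ∪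
      (univ.filter (fun h => phi ℓ G (P0 + h) = 0)) : Finset (Pt a b)) := by
    intro h hh
    rw [mem_coe, mem_union, mem_filter, mem_filter, mem_filter]
    rcases hh.2 with h0 | ⟨w, hw⟩
    · right
      refine ⟨mem_univ _, ?_⟩
      rw [h0, phi, hmd]
      show (0 : ZMod p) ^ m = 0
      rw [zero_pow hm0]
    · by_cases hw0 : w = 0
      · right
        refine ⟨mem_univ _, ?_⟩
        rw [phi, ← hw, hw0, zero_pow hℓ.ne_zero, hmd, zero_pow hm0]
      · left
        refine ⟨⟨mem_univ _, hh.1⟩, ?_⟩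
        rw [phi, ← hw, hmd, ← pow_mul, ← hm, ZMod.pow_card_sub_one_eq_one hw0]
  have hc2 : (univ.filter (fun h => phi ℓ G (P0 + h) = 0)).card ≤ 8 * D + 7 := by
    refine le_trans ?_ hzeros
    refine card_le_card_of_injOn (fun t => P0 + t) ?_ ?_
    · intro t ht
      rw [mem_coe, mem_filter] at ht
      rw [mem_coe, mem_filter]
      exact ⟨mem_univ _, ht.2⟩
    · intro t ht t' ht' he
      exact add_left_cancel he
  have hc := (Set.ncard_le_ncard hsplit (finite_toSet _)).trans
    ((Set.ncard_coe_finset _).le.trans (card_union_le _ _))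
  have hcr : (({h : Pt a b | h ∈ H ∧ (P0 + h = 0 ∨
      ∃ w : ZMod p, w ^ ℓ = gv (K := ZMod p) G (P0 + h))}.ncard : ℕ) : ℝ) ≤
      (((univ.filter (· ∈ H)).filter (fun h => phi ℓ G (P0 + h) = 1)).card : ℝ) +
        (8 * D + 7) := by
    have := hc.trans (Nat.add_le_add_left hc2 _)
    exact_mod_cast this
  unfold locB
  linarith

end

end Pool.Agent.J4H11.GC
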