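import Pool.Agent.J4H11.RC.Ht3

/-!
# Subgroups generated by the reductions of several points
-/

set_option autoImplicit false

namespace Pool.Agent.J4H11.GC

open Finset WeierstrassCurve Pool.Agent.H901R3.MS Pool.Agent.J4H11.RC

/-- primes modulo which several independent points have a small relation -/
theorem primes_vec {k : ℕ} (a b : ℤ) (hD : Disc (a : ℚ) (b : ℚ)) (f : Fin k → Pt (a : ℚ) (b : ℚ))
    (hf : ∀ m : Fin k → ℤ, m ≠ 0 → ∑ t, m t • f t ≠ 0) : ∃ C : ℝ, 0 ≤ C ∧ ∀ (s M : ℕ),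
    1 ≤ s → 1 ≤ M → ∀ S : Finset ℕ,
    (∀ p ∈ S, p.Prime ∧ ∃ m : Fin k → ℤ, (∀ t, |m t| ≤ s) ∧ m ≠ 0 ∧
      zr p (M • ∑ t, m t • f t)) → (S.card : ℝ) ≤ C * M ^ 2 * s ^ (k + 2) := by
  classical
  obtain ⟨d, ψ, C, hC0, hC⟩ := embE a b hD
  set B : ℝ := ∑ t, ‖ψ (f t)‖ with hB
  have hB0 : 0 ≤ B := sum_nonneg fun _ _ => norm_nonneg _
  refine ⟨2 * 3 ^ k * (B ^ 2 + C), by positivity, fun s M hs hM S hS => ?_⟩
  have hs1 : (1 : ℝ) ≤ s := by exact_mod_cast hs
  have hM1 : (1 : ℝ) ≤ M := by exact_mod_cast hM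
  have h1 := primes_family
    ((Fintype.piFinset (fun _ : Fin k => Finset.Icc (-(s : ℤ)) s)).filter (fun m => m ≠ 0))
    (fun m => M • ∑ t, m t • f t) ?_ ((B ^ 2 + C) * (M ^ 2 * s ^ 2)) ?_ S ?_
  · refine h1.trans ?_
    have hc : ((((Fintype.piFinset (fun _ : Fin k => Finset.Icc (-(s : ℤ)) s)).filter
        (fun m => m ≠ 0)).card : ℕ) : ℝ) ≤ (3 * s) ^ k := by
      have h2 : ((Fintype.piFinset (fun _ : Fin k => Finset.Icc (-(s : ℤ)) s)).filter
        (fun m => m ≠ 0)).card ≤ (3 * s) ^ k := by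
        refine (Finset.card_filter_le _ _).trans ?_
        rw [Fintype.card_piFinset]
        simp only [Int.card_Icc, prod_const, card_univ, Fintype.card_fin]
        apply Nat.pow_le_pow_left
        omega
      exact_mod_cast h2
    have hM' : 0 ≤ 2 * ((B ^ 2 + C) * ((M : ℝ) ^ 2 * (s : ℝ) ^ 2)) := by positivity
    refine (mul_le_mul_of_nonneg_right hc hM').trans (le_of_eq ?_)
    rw [mul_pow]
    ring
  · intro m hm
    have h2 := hf m (Finset.mem_filter.1 hm).2
    have h3 : (fun t => (M : ℤ) * m t) ≠ 0 := by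
      intro h0
      apply (Finset.mem_filter.1 hm).2
      funext t
      have h4 := congrFun h0 t
      simp only [Pi.zero_apply, mul_eq_zero] at h4
      rcases h4 with h4 | h4
      · have : M = 0 := by exact_mod_cast h4
        omega
      · exact h4
    have h4 := hf _ h3
    intro h5
    apply h4
    rw [← h5, smul_sum]
    refine sum_congr rfl fun t _ => ?_
    rw [mul_smul, natCast_zsmul]
  · intro m hm
    rw [Finset.mem_filter, Fintype.mem_piFinset] at hm
    change hx (M • ∑ t, m t • f t) ≤ _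
    have h2 := (abs_le.1 (hC (M • ∑ t, m t • f t))).1
    have h3 : ‖ψ (M • ∑ t, m t • f t)‖ ≤ M * (s * B) := by
      rw [map_nsmul, ← Nat.cast_smul_eq_nsmul ℝ, norm_smul, Real.norm_natCast]
      apply mul_le_mul_of_nonneg_left _ (Nat.cast_nonneg _)
      rw [map_sum, hB, mul_sum]
      refine (norm_sum_le _ _).trans (sum_le_sum fun t _ => ?_)
      rw [map_zsmul, ← Int.cast_smul_eq_zsmul ℝ, norm_smul]
      apply mul_le_mul_of_nonneg_right _ (norm_nonneg _)
      have h4 := Finset.mem_Icc.1 (hm.1 t)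
      rw [Real.norm_eq_abs, abs_le]
      constructor
      · exact_mod_cast h4.1
      · exact_mod_cast h4.2
    have h4 : ‖ψ (M • ∑ t, m t • f t)‖ ^ 2 ≤ (M * (s * B)) ^ 2 :=
      pow_le_pow_left₀ (norm_nonneg _) h3 2
    have h5 : C ≤ C * ((M : ℝ) ^ 2 * (s : ℝ) ^ 2) := by
      have h6 : (1 : ℝ) ≤ (s : ℝ) ^ 2 := one_le_pow₀ hs1
      have h7 : (1 : ℝ) ≤ (M : ℝ) ^ 2 := one_le_pow₀ hM1
      have : (1 : ℝ) ≤ (M : ℝ) ^ 2 * (s : ℝ) ^ 2 := by nlinarith
      nlinarith
    nlinarith
  · intro p hp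
    obtain ⟨hp1, m, hm, hmn, hz⟩ := hS p hp
    refine ⟨hp1, m, ?_, hz⟩
    rw [Finset.mem_filter, Fintype.mem_piFinset]
    refine ⟨fun t => ?_, hmn⟩
    rw [Finset.mem_Icc]
    exact abs_le.1 (hm t)

section
variable {E : Type} [AddCommGroup E]

theorem range_card [Finite E] {k : ℕ} (g : Fin k → E) (s : ℕ)
    (h : ∀ m : Fin k → ℤ, (∀ t, |m t| ≤ s) → m ≠ 0 → ∑ t, m t • g t ≠ 0) :
    (s + 1) ^ k ≤ Nat.card (AddSubgroup.closure (Set.range g)) := by
  classical
  set H := AddSubgroup.closure (Set.range g) with hH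
  have hg : ∀ t, g t ∈ H := fun t => AddSubgroup.subset_closure ⟨t, rfl⟩
  let φ : (Fin k → Fin (s + 1)) → H := fun u => ⟨∑ t, (u t : ℕ) • g t,
    H.sum_mem fun t _ => H.nsmul_mem (hg t) _⟩
  have hφ : Function.Injective φ := by
    intro u v huv
    have h1 : ∑ t, (u t : ℕ) • g t = ∑ t, (v t : ℕ) • g t := congrArg Subtype.val huv
    by_contra hne
    refine h (fun t => ((u t : ℕ) : ℤ) - ((v t : ℕ) : ℤ)) ?_ ?_ ?_
    · intro t
      have h2 := (u t).is_lt
      have h3 := (v t).is_lt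
      rw [abs_le]
      constructor <;> omega
    · intro h0
      apply hne
      funext t
      have h2 := congrFun h0 t
      simp only [Pi.zero_apply] at h2
      apply Fin.ext
      omega
    · simp only [sub_smul, natCast_zsmul]
      rw [sum_sub_distrib, h1, sub_self]
  have h1 := Nat.card_le_card_of_injective φ hφ
  rw [Nat.card_fun] at h1
  simpa using h1

theorem fib_unif [Finite E] {k : ℕ} (g : Fin k → E) (e : ℕ) (he : 1 ≤ e) (hE : ∀ x : E, e • x = 0)
    (S : Set E) [DecidablePred (· ∈ S)] (N : ℕ)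
    (h : N * {x : E | x ∈ AddSubgroup.closure (Set.range g) ∧ x ∈ S}.ncard ≤
      (N - 1) * Nat.card (AddSubgroup.closure (Set.range g))) :
    N * ((Fintype.piFinset (fun _ : Fin k => range e)).filter
      (fun t => ∑ s, t s • g s ∈ S)).card ≤ (N - 1) * e ^ k := by
  classical
  have := Fintype.ofFinite E
  have : NeZero e := ⟨by omega⟩
  set H := AddSubgroup.closure (Set.range g) with hH
  have hg : ∀ t, g t ∈ H := fun t => AddSubgroup.subset_closure ⟨t, rfl⟩
  have hl : ∀ x : E, (zmultiplesHom E x) (e : ℤ) = 0 := by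
    intro x
    rw [zmultiplesHom_apply, natCast_zsmul]
    exact hE x
  let φ : (Fin k → ZMod e) →+ E :=
    ∑ s, (ZMod.lift e ⟨zmultiplesHom E (g s), hl (g s)⟩).comp (Pi.evalAddMonoidHom _ s)
  have hφ : ∀ t : Fin k → ℕ, φ (fun s => (t s : ZMod e)) = ∑ s, t s • g s := by
    intro t
    simp only [φ, AddMonoidHom.finsetSum_apply, AddMonoidHom.comp_apply, Pi.evalAddMonoidHom_apply]
    refine sum_congr rfl fun s _ => ?_
    have h1 := ZMod.lift_coe e ⟨zmultiplesHom E (g s), hl (g s)⟩ (t s : ℤ)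
    rw [Int.cast_natCast] at h1
    rw [h1, zmultiplesHom_apply, natCast_zsmul]
  have hφ' : ∀ u : Fin k → ZMod e, φ u = ∑ s, (u s).val • g s := by
    intro u
    rw [← hφ]
    congr 1
    funext s
    rw [ZMod.natCast_zmod_val]
  have hrange : ∀ x : E, x ∈ Set.range φ ↔ x ∈ H := by
    intro x
    constructor
    · rintro ⟨u, rfl⟩
      rw [hφ']
      exact H.sum_mem fun s _ => H.nsmul_mem (hg s) _
    · intro hx
      have h1 : H ≤ φ.range := by
        rw [hH, AddSubgroup.closure_le]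
        rintro _ ⟨s, rfl⟩
        refine ⟨fun s' => ((if s' = s then 1 else 0 : ℕ) : ZMod e), ?_⟩
        rw [hφ]
        simp
      exact h1 hx
  set c := (univ.filter (fun u => φ u = 0)).card with hc
  have hfib : ∀ x ∈ H, (univ.filter (fun u => φ u = x)).card = c := by
    intro x hx
    exact AddMonoidHom.card_fiber_eq_of_mem_range φ ((hrange x).2 hx) ((hrange 0).2 H.zero_mem)
  have htot : e ^ k = Nat.card H * c := by
    have h1 : (univ : Finset (Fin k → ZMod e)).card = e ^ k := by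
      rw [card_univ, Fintype.card_fun, ZMod.card, Fintype.card_fin]
    have h2 : (univ : Finset (Fin k → ZMod e)).card =
        ∑ x ∈ univ.filter (fun x => x ∈ H), (univ.filter (fun u => φ u = x)).card := by
      rw [card_eq_sum_card_fiberwise (f := φ) (t := univ.filter (fun x => x ∈ H))]
      intro u _
      rw [mem_coe, mem_filter]
      exact ⟨mem_univ _, (hrange _).1 ⟨u, rfl⟩⟩
    rw [← h1, h2, sum_congr rfl fun x hx => hfib x (mem_filter.1 hx).2, sum_const, smul_eq_mul]
    congr 1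
    rw [Nat.card_eq_fintype_card, Fintype.card_subtype]
  have hS : ((Fintype.piFinset (fun _ : Fin k => range e)).filter
      (fun t => ∑ s, t s • g s ∈ S)).card ≤ {x : E | x ∈ H ∧ x ∈ S}.ncard * c := by
    have h1 : ((Fintype.piFinset (fun _ : Fin k => range e)).filter
      (fun t => ∑ s, t s • g s ∈ S)).card ≤ (univ.filter (fun u => φ u ∈ S)).card := by
      refine card_le_card_of_injOn (fun t s => (t s : ZMod e)) ?_ ?_
      · intro t ht
        rw [mem_coe, mem_filter] at ht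
        rw [mem_coe, mem_filter, hφ]
        exact ⟨mem_univ _, ht.2⟩
      · intro t ht t' ht' he'
        rw [mem_coe, mem_filter, Fintype.mem_piFinset] at ht ht'
        funext s
        have h2 := congrFun he' s
        simp only at h2
        rw [ZMod.natCast_eq_natCast_iff'] at h2
        have h3 := mem_range.1 (ht.1 s)
        have h4 := mem_range.1 (ht'.1 s)
        rwa [Nat.mod_eq_of_lt h3, Nat.mod_eq_of_lt h4] at h2
    refine h1.trans ?_
    have h2 : (univ.filter (fun u => φ u ∈ S)).card =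
        ∑ x ∈ univ.filter (fun x => x ∈ H ∧ x ∈ S), ((univ.filter (fun u => φ u ∈ S)).filter
          (fun u => φ u = x)).card := by
      rw [card_eq_sum_card_fiberwise (f := φ) (t := univ.filter (fun x => x ∈ H ∧ x ∈ S))]
      intro u hu
      rw [mem_coe, mem_filter] at hu ⊢
      exact ⟨mem_univ _, (hrange _).1 ⟨u, rfl⟩, hu.2⟩
    rw [h2]
    have h3 : ∀ x ∈ univ.filter (fun x => x ∈ H ∧ x ∈ S), ((univ.filter (fun u => φ u ∈ S)).filter
          (fun u => φ u = x)).card ≤ c := by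
      intro x hx
      rw [← hfib x (mem_filter.1 hx).2.1]
      apply card_le_card
      intro u hu
      rw [mem_filter] at hu ⊢
      exact ⟨mem_univ _, hu.2⟩
    refine (sum_le_card_nsmul _ _ _ h3).trans (le_of_eq ?_)
    rw [smul_eq_mul]
    congr 1
    rw [← Set.ncard_coe_finset]
    congr 1
    ext x
    simp
  calc N * ((Fintype.piFinset (fun _ : Fin k => range e)).filter
      (fun t => ∑ s, t s • g s ∈ S)).card ≤ N * ({x : E | x ∈ H ∧ x ∈ S}.ncard * c) :=
        Nat.mul_le_mul_left _ hS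
    _ = (N * {x : E | x ∈ H ∧ x ∈ S}.ncard) * c := by ring
    _ ≤ ((N - 1) * Nat.card H) * c := Nat.mul_le_mul_right _ h
    _ = (N - 1) * (Nat.card H * c) := by ring
    _ = (N - 1) * e ^ k := by rw [htot]

end

end Pool.Agent.J4H11.GC
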