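import Mathlib

/-!
# A tower sieve: conditions modulo `e 0`, `e 0 e 1`, ...
-/

set_option autoImplicit false

namespace Pool.Agent.J4H11.GC

open Finset

theorem split_box {k : ℕ} (M B : ℕ) (P : (Fin k → ℕ) → Prop) [DecidablePred P]
    (A : Finset (Fin k → ℕ))
    (hA : ∀ z ∈ Fintype.piFinset (fun _ : Fin k => range (M * B)), P z →
      (fun s => z s % M) ∈ A) :
    ((Fintype.piFinset (fun _ : Fin k => range (M * B))).filter P).card ≤
      ∑ u ∈ A, ((Fintype.piFinset (fun _ : Fin k => range B)).filter
        (fun t => P (fun s => u s + M * t s))).card := by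
  rw [← card_sigma]
  refine card_le_card_of_injOn (fun z => ⟨fun s => z s % M, fun s => z s / M⟩) ?_ ?_
  · intro z hz
    rw [mem_coe, mem_filter] at hz
    rw [mem_coe, mem_sigma, mem_filter]
    refine ⟨hA z hz.1 hz.2, ?_, ?_⟩
    · rw [Fintype.mem_piFinset] at hz ⊢
      intro s
      have h1 := mem_range.1 (hz.1 s)
      rw [mem_range]
      exact Nat.div_lt_of_lt_mul h1
    · have h1 : (fun s => z s % M + M * (z s / M)) = z := by
        funext s
        exact Nat.mod_add_div _ _
      change P (fun s => z s % M + M * (z s / M))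
      rw [h1]
      exact hz.2
  · intro z _ z' _ h
    simp only [Sigma.mk.injEq, heq_eq_eq] at h
    funext s
    have h1 := congrFun h.1 s
    have h2 := congrFun h.2 s
    rw [← Nat.mod_add_div (z s) M, h1, h2, Nat.mod_add_div]

open Classical in
theorem tower {k : ℕ} (e : ℕ → ℕ) (he : ∀ m, 1 ≤ e m) (Sur : ℕ → (Fin k → ℕ) → Prop) (N : ℕ)
    (K : ℕ)
    (hper : ∀ m < K, ∀ z z' : Fin k → ℕ, (∀ s, z s % e m = z' s % e m) → Sur m z → Sur m z')
    (hloc : ∀ m < K, ∀ u : Fin k → ℕ, N * ((Fintype.piFinset (fun _ : Fin k => range (e m))).filter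
      (fun t => Sur m (fun s => u s + (∏ j ∈ range m, e j) * t s))).card ≤ (N - 1) * e m ^ k)
    (L : ℕ) :
    N ^ K * ((Fintype.piFinset (fun _ : Fin k => range L)).filter
      (fun z => ∀ m < K, Sur m z)).card ≤ (N - 1) ^ K * (L + ∏ j ∈ range K, e j) ^ k := by
  set M : ℕ → ℕ := fun m => ∏ j ∈ range m, e j with hM
  have hM1 : ∀ m, 1 ≤ M m := fun m => Nat.one_le_iff_ne_zero.2
    (prod_ne_zero_iff.2 fun j _ => by have := he j; omega)
  set T : ℕ → Finset (Fin k → ℕ) := fun m =>
    (Fintype.piFinset (fun _ : Fin k => range (M m))).filter (fun z => ∀ j < m, Sur j z) with hT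
  have hmodsur : ∀ m ≤ K, ∀ z : Fin k → ℕ, (∀ j < m, Sur j z) →
      (fun s => z s % M m) ∈ T m := by
    intro m hm z hz
    simp only [hT, mem_filter, Fintype.mem_piFinset, mem_range]
    refine ⟨fun s => Nat.mod_lt _ (hM1 m), fun j hj => ?_⟩
    refine hper j (by omega) z _ (fun s => ?_) (hz j hj)
    have h1 : e j ∣ M m := dvd_prod_of_mem e (mem_range.2 hj)
    exact (Nat.mod_mod_of_dvd (z s) h1).symm
  have hTc : ∀ m ≤ K, N ^ m * (T m).card ≤ (N - 1) ^ m * M m ^ k := by
    intro m
    induction m with
    | zero =>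
      intro _
      simp only [pow_zero, one_mul, hT, hM, range_zero, prod_empty, one_pow]
      refine (card_filter_le _ _).trans ?_
      rw [Fintype.card_piFinset]
      simp
    | succ m ih =>
      intro hm
      have ih' := ih (by omega)
      have hMs : M (m + 1) = M m * e m := by
        simp only [hM]
        rw [prod_range_succ]
      have h1 : (T (m + 1)).card ≤ ∑ u ∈ T m, ((Fintype.piFinset
          (fun _ : Fin k => range (e m))).filter (fun t => Sur m (fun s => u s + M m * t s))).card := by
        have h2 := split_box (M m) (e m) (fun z => ∀ j < m + 1, Sur j z) (T m)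
          (fun z _ hz => hmodsur m (by omega) z fun j hj => hz j (by omega))
        rw [← hMs] at h2
        have h3 : (T (m + 1)).card = ((Fintype.piFinset (fun _ : Fin k => range (M (m + 1)))).filter
            (fun z => ∀ j < m + 1, Sur j z)).card := rfl
        rw [h3]
        refine h2.trans (sum_le_sum fun u _ => ?_)
        apply card_le_card
        intro t ht
        rw [mem_filter] at ht ⊢
        exact ⟨ht.1, ht.2 m (by omega)⟩
      have h2 : N * (T (m + 1)).card ≤ (T m).card * ((N - 1) * e m ^ k) := by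
        calc N * (T (m + 1)).card ≤ N * ∑ u ∈ T m, ((Fintype.piFinset
          (fun _ : Fin k => range (e m))).filter
            (fun t => Sur m (fun s => u s + M m * t s))).card := Nat.mul_le_mul_left _ h1
          _ = ∑ u ∈ T m, N * ((Fintype.piFinset
          (fun _ : Fin k => range (e m))).filter
            (fun t => Sur m (fun s => u s + M m * t s))).card := mul_sum _ _ _
          _ ≤ ∑ u ∈ T m, (N - 1) * e m ^ k := sum_le_sum fun u _ => hloc m (by omega) u
          _ = (T m).card * ((N - 1) * e m ^ k) := by rw [sum_const, smul_eq_mul]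
      calc N ^ (m + 1) * (T (m + 1)).card = N ^ m * (N * (T (m + 1)).card) := by ring
        _ ≤ N ^ m * ((T m).card * ((N - 1) * e m ^ k)) := Nat.mul_le_mul_left _ h2
        _ = (N ^ m * (T m).card) * ((N - 1) * e m ^ k) := by ring
        _ ≤ ((N - 1) ^ m * M m ^ k) * ((N - 1) * e m ^ k) := Nat.mul_le_mul_right _ ih'
        _ = (N - 1) ^ (m + 1) * M (m + 1) ^ k := by
            rw [hMs, mul_pow]
            ring
  set B := L / M K + 1 with hB
  have hLB : L ≤ M K * B := by
    rw [hB]
    have := Nat.lt_mul_div_succ L (hM1 K)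
    exact this.le
  have h1 : ((Fintype.piFinset (fun _ : Fin k => range L)).filter
      (fun z => ∀ m < K, Sur m z)).card ≤ (T K).card * B ^ k := by
    have h2 : ((Fintype.piFinset (fun _ : Fin k => range L)).filter
      (fun z => ∀ m < K, Sur m z)).card ≤ ((Fintype.piFinset
        (fun _ : Fin k => range (M K * B))).filter (fun z => ∀ m < K, Sur m z)).card := by
      apply card_le_card
      intro z hz
      rw [mem_filter, Fintype.mem_piFinset] at hz ⊢
      exact ⟨fun s => mem_range.2 ((mem_range.1 (hz.1 s)).trans_le hLB), hz.2⟩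
    have h3 := split_box (M K) B (fun z => ∀ m < K, Sur m z) (T K)
      (fun z _ hz => hmodsur K le_rfl z hz)
    refine h2.trans (h3.trans ?_)
    refine (sum_le_card_nsmul _ _ (B ^ k) fun u _ => ?_).trans (le_of_eq (smul_eq_mul _ _))
    refine (card_filter_le _ _).trans ?_
    rw [Fintype.card_piFinset]
    simp
  have hBM : M K * B ≤ L + M K := by
    rw [hB, mul_add, mul_one]
    exact Nat.add_le_add_right (Nat.mul_div_le L (M K)) _
  calc N ^ K * ((Fintype.piFinset (fun _ : Fin k => range L)).filter
      (fun z => ∀ m < K, Sur m z)).card ≤ N ^ K * ((T K).card * B ^ k) := Nat.mul_le_mul_left _ h1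
    _ = (N ^ K * (T K).card) * B ^ k := by ring
    _ ≤ ((N - 1) ^ K * M K ^ k) * B ^ k := Nat.mul_le_mul_right _ (hTc K le_rfl)
    _ = (N - 1) ^ K * (M K * B) ^ k := by rw [mul_pow]; ring
    _ ≤ (N - 1) ^ K * (L + M K) ^ k := Nat.mul_le_mul_left _ (Nat.pow_le_pow_left hBM k)

end Pool.Agent.J4H11.GC
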