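import Pool.Agent.J4H11.GC.Int
import Pool.Agent.J4H11.GC.Tow1
import Pool.Agent.J4H11.GC.Tow2
import Pool.Agent.J4H11.RC.BadC

/-!
# The tower sieve for boxes of points of `A(ℚ)`
-/

set_option autoImplicit false

namespace Pool.Agent.J4H11.GC

open Finset MvPolynomial WeierstrassCurve Pool.Agent.H901R3.MS Pool.Agent.J4H11.RC

section
variable {r : ℕ} (i : Fin r) {a b : Fin r → ℤ}

/-- the point `c + n R + z f`, `z f` in the direction `i` -/
def bp {k : ℕ} (c R : (j : Fin r) → Pt (a j : ℚ) (b j : ℚ))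
    (f : Fin k → Pt (a i : ℚ) (b i : ℚ)) (n : Fin r → ℕ) (z : Fin k → ℕ) :
    (j : Fin r) → Pt (a j : ℚ) (b j : ℚ) :=
  Function.update (fun j => c j + n j • R j) i (c i + n i • R i + ∑ s, z s • f s)

theorem red_bp {k : ℕ} {p : ℕ} [Fact p.Prime] (ld : LD a b p)
    (c R : (j : Fin r) → Pt (a j : ℚ) (b j : ℚ))
    (f : Fin k → Pt (a i : ℚ) (b i : ℚ)) (n : Fin r → ℕ) (z : Fin k → ℕ) :
    (fun j => ld.red j (bp i c R f n z j)) =
      Function.update (fun j => ld.red j (c j + n j • R j)) i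
        (ld.red i (c i + n i • R i) + ∑ s, z s • ld.red i (f s)) := by
  funext j
  unfold bp
  by_cases hj : j = i
  · subst hj
    rw [Function.update_self, Function.update_self, map_add, map_sum]
    congr 1
    exact sum_congr rfl fun s _ => map_nsmul _ _ _
  · rw [Function.update_of_ne hj, Function.update_of_ne hj]

open Classical in
/-- the count for one `n` -/
theorem tower_line (Ψ : MvPolynomial (Bi i) ℤ) (N : ℕ) (κ : ℝ) {k : ℕ}
    (Lf : ((j : Fin r) → Pt (a j : ℚ) (b j : ℚ)) → Prop)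
    (c R : (j : Fin r) → Pt (a j : ℚ) (b j : ℚ)) (f : Fin k → Pt (a i : ℚ) (b i : ℚ))
    (K L : ℕ) (pr : ℕ → ℕ) (hp : ∀ m, Fact (pr m).Prime) (ld : ∀ m, LD a b (pr m))
    (S : ∀ m, Set ((j : Fin r) → Pt (a j : ZMod (pr m)) (b j : ZMod (pr m))))
    (hS : ∀ m < K, ∀ P, Lf P → (∀ j, (ld m).red j (P j) ≠ 0) → (fun j => (ld m).red j (P j)) ∈ S m)
    (hloc : ∀ m < K, LocOK i a b Ψ N κ (pr m) (S m)) (sz : ℕ → ℕ)
    (hsz : ∀ m < K, ((pr m : ℕ) : ℝ) ^ (1 / 2 + κ) ≤ (((sz m + 1) ^ k : ℕ) : ℝ))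
    (hrel : ∀ m < K, ∀ v : Fin k → ℤ, (∀ t, |v t| ≤ sz m) → v ≠ 0 →
      ∑ t, v t • ((∏ j ∈ range m, Nat.card (Pt (a i : ZMod (pr j)) (b i : ZMod (pr j)))) •
        (ld m).red i (f t)) ≠ 0)
    (n : Fin r → ℕ) (hn : ∀ m < K, ¬ Bdp i Ψ (ld m).red c R n) :
    N ^ K * ((Fintype.piFinset (fun _ : Fin k => range L)).filter
      (fun z => Lf (bp i c R f n z))).card ≤ (N - 1) ^ K *
        (L + ∏ j ∈ range K, Nat.card (Pt (a i : ZMod (pr j)) (b i : ZMod (pr j)))) ^ k := by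
  have hfin : ∀ m, Finite (Pt (a i : ZMod (pr m)) (b i : ZMod (pr m))) := fun m => finite_pt _ _
  set e : ℕ → ℕ := fun m => Nat.card (Pt (a i : ZMod (pr m)) (b i : ZMod (pr m))) with he
  have he1 : ∀ m, 1 ≤ e m := fun m => Nat.card_pos
  have hekill : ∀ m (x : Pt (a i : ZMod (pr m)) (b i : ZMod (pr m))), e m • x = 0 := fun m x =>
    card_nsmul_eq_zero'
  obtain ⟨Sur, hSur⟩ : ∃ Sur : ℕ → (Fin k → ℕ) → Prop, Sur = fun m z =>
    (ld m).red i (c i + n i • R i) + ∑ s, z s • (ld m).red i (f s) = 0 ∨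
      Function.update (fun j => (ld m).red j (c j + n j • R j)) i
        ((ld m).red i (c i + n i • R i) + ∑ s, z s • (ld m).red i (f s)) ∈ S m := ⟨_, rfl⟩
  have hsub : ((Fintype.piFinset (fun _ : Fin k => range L)).filter
      (fun z => Lf (bp i c R f n z))) ⊆ ((Fintype.piFinset (fun _ : Fin k => range L)).filter
      (fun z => ∀ m < K, Sur m z)) := by
    intro z hz
    rw [mem_filter] at hz ⊢
    refine ⟨hz.1, fun m hm => ?_⟩
    rw [hSur]
    have hb := hn m hm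
    unfold Bdp at hb
    push Not at hb
    by_cases h0 : (ld m).red i (c i + n i • R i) + ∑ s, z s • (ld m).red i (f s) = 0
    · exact Or.inl h0
    · right
      rw [← red_bp]
      apply hS m hm _ hz.2
      intro j
      have h1 : (ld m).red j (bp i c R f n z j) =
          Function.update (fun j => (ld m).red j (c j + n j • R j)) i
            ((ld m).red i (c i + n i • R i) + ∑ s, z s • (ld m).red i (f s)) j :=
        congrFun (red_bp i (ld m) c R f n z) j
      rw [h1]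
      by_cases hj : j = i
      · subst hj
        rw [Function.update_self]
        exact h0
      · rw [Function.update_of_ne hj]
        exact hb.1 j hj
  refine (Nat.mul_le_mul_left _ (card_le_card hsub)).trans ?_
  refine tower e he1 Sur N K ?_ ?_ L
  · intro m _ z z' hzz' hz
    have h1 : ∑ s, z s • (ld m).red i (f s) = ∑ s, z' s • (ld m).red i (f s) := by
      refine sum_congr rfl fun s _ => ?_
      have h2 : ∀ t : ℕ, t • (ld m).red i (f s) = (t % e m) • (ld m).red i (f s) := by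
        intro t
        conv_lhs => rw [← Nat.mod_add_div t (e m)]
        rw [add_smul, mul_smul, smul_comm, hekill, smul_zero, add_zero]
      rw [h2 (z s), h2 (z' s), hzz' s]
    simp only [hSur] at hz ⊢
    rwa [← h1]
  · intro m hm u
    have hb := hn m hm
    unfold Bdp at hb
    push Not at hb
    set M : ℕ := ∏ j ∈ range m, e j with hM
    set g : Fin k → Pt (a i : ZMod (pr m)) (b i : ZMod (pr m)) := fun s => M • (ld m).red i (f s)
      with hg
    set P0 := (ld m).red i (c i + n i • R i) + ∑ s, u s • (ld m).red i (f s) with hP0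
    set Q := fun j => (ld m).red j (c j + n j • R j) with hQ
    have h1 : ∀ t : Fin k → ℕ, (ld m).red i (c i + n i • R i) +
        ∑ s, (u s + M * t s) • (ld m).red i (f s) = P0 + ∑ s, t s • g s := by
      intro t
      rw [hP0, add_assoc, ← sum_add_distrib]
      congr 1
      refine sum_congr rfl fun s _ => ?_
      rw [add_smul, hg, mul_comm, mul_smul]
    have h2 := fib_unif g (e m) (he1 m) (hekill m)
      {h | P0 + h = 0 ∨ Function.update Q i (P0 + h) ∈ S m} N (by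
        refine hloc m hm Q hb.1 hb.2 _ P0 ((hsz m hm).trans ?_)
        exact_mod_cast range_card g (sz m) (hrel m hm))
    refine le_trans (Nat.mul_le_mul_left _ (card_le_card ?_)) h2
    intro t ht
    rw [mem_filter] at ht ⊢
    refine ⟨ht.1, ?_⟩
    have h3 := ht.2
    simp only [hSur] at h3
    rw [h1] at h3
    exact h3

open Classical in
theorem tower_box (Ψ : MvPolynomial (Bi i) ℤ) (m0 : Bi i →₀ ℕ) (N : ℕ) (hN : 1 ≤ N) (κ : ℝ) {k : ℕ}
    (Lf : ((j : Fin r) → Pt (a j : ℚ) (b j : ℚ)) → Prop)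
    (c R : (j : Fin r) → Pt (a j : ℚ) (b j : ℚ)) (f : Fin k → Pt (a i : ℚ) (b i : ℚ))
    (K L : ℕ) (pr : ℕ → ℕ) (hp : ∀ m, Fact (pr m).Prime) (ld : ∀ m, LD a b (pr m))
    (S : ∀ m, Set ((j : Fin r) → Pt (a j : ZMod (pr m)) (b j : ZMod (pr m))))
    (hS : ∀ m < K, ∀ P, Lf P → (∀ j, (ld m).red j (P j) ≠ 0) → (fun j => (ld m).red j (P j)) ∈ S m)
    (hloc : ∀ m < K, LocOK i a b Ψ N κ (pr m) (S m)) (sz : ℕ → ℕ)
    (hsz : ∀ m < K, ((pr m : ℕ) : ℝ) ^ (1 / 2 + κ) ≤ (((sz m + 1) ^ k : ℕ) : ℝ))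
    (hrel : ∀ m < K, ∀ v : Fin k → ℤ, (∀ t, |v t| ≤ sz m) → v ≠ 0 →
      ∑ t, v t • ((∏ j ∈ range m, Nat.card (Pt (a i : ZMod (pr j)) (b i : ZMod (pr j)))) •
        (ld m).red i (f t)) ≠ 0)
    (hm0 : ∀ m < K, ((Ψ.coeff m0 : ℤ) : ZMod (pr m)) ≠ 0) (z : ℕ → ℕ) (hz : ∀ m < K, 1 ≤ z m)
    (hzL : ∀ m < K, z m ≤ L) (ho : ∀ m < K, ∀ j, z m ≤ addOrderOf ((ld m).red j (R j))) :
    (((Fintype.piFinset (fun _ : Fin r => range L)) ×ˢ
        (Fintype.piFinset (fun _ : Fin k => range L))).filter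
      (fun nz => Lf (bp i c R f nz.1 nz.2))).card ≤
      (L : ℝ) ^ r * ((1 - 1 / (N : ℝ)) ^ K *
        ((L : ℝ) + ∏ j ∈ range K, (Nat.card (Pt (a i : ZMod (pr j)) (b i : ZMod (pr j))) : ℝ)) ^ k) +
      (∑ m ∈ range K, ((2 * r + 6 * Ψ.totalDegree : ℕ) : ℝ) / z m) * (L : ℝ) ^ r * (L : ℝ) ^ k := by
  set box := Fintype.piFinset (fun _ : Fin r => range L) with hbox
  set boz := Fintype.piFinset (fun _ : Fin k => range L) with hboz
  set bad := box.filter (fun n => ∃ m < K, Bdp i Ψ (ld m).red c R n) with hbad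
  have hN0 : (0 : ℝ) < N := by exact_mod_cast hN
  have hbc : (box.card : ℝ) = (L : ℝ) ^ r := by
    rw [hbox, Fintype.card_piFinset]
    simp
  have hbz : (boz.card : ℝ) = (L : ℝ) ^ k := by
    rw [hboz, Fintype.card_piFinset]
    simp
  have h1 : ((box ×ˢ boz).filter (fun nz => Lf (bp i c R f nz.1 nz.2))).card ≤
      ∑ n ∈ box, (boz.filter (fun z => Lf (bp i c R f n z))).card := by
    rw [← card_sigma]
    refine card_le_card_of_injOn (fun nz => ⟨nz.1, nz.2⟩) ?_ ?_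
    · intro nz h
      rw [mem_coe, mem_filter, mem_product] at h
      rw [mem_coe, mem_sigma, mem_filter]
      exact ⟨h.1.1, h.1.2, h.2⟩
    · intro nz _ nz' _ h
      simp only [Sigma.mk.injEq, heq_eq_eq] at h
      exact Prod.ext h.1 h.2
  set X : ℝ := (1 - 1 / (N : ℝ)) ^ K *
        ((L : ℝ) + ∏ j ∈ range K, (Nat.card (Pt (a i : ZMod (pr j)) (b i : ZMod (pr j))) : ℝ)) ^ k
    with hX
  have hX0 : 0 ≤ X := by
    have : (0 : ℝ) ≤ 1 - 1 / (N : ℝ) := by
      rw [sub_nonneg, div_le_one hN0]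
      exact_mod_cast hN
    positivity
  have h2 : ∀ n ∈ box, n ∉ bad → ((boz.filter (fun z => Lf (bp i c R f n z))).card : ℝ) ≤ X := by
    intro n hn hnb
    have h3 : ∀ m < K, ¬ Bdp i Ψ (ld m).red c R n := by
      intro m hm h
      exact hnb (mem_filter.2 ⟨hn, m, hm, h⟩)
    have h4 := tower_line i Ψ N κ Lf c R f K L pr hp ld S hS hloc sz hsz hrel n h3
    have h5 : ((N : ℝ)) ^ K * ((boz.filter (fun z => Lf (bp i c R f n z))).card : ℝ) ≤
        ((N : ℝ) - 1) ^ K * ((L : ℝ) +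
          ∏ j ∈ range K, (Nat.card (Pt (a i : ZMod (pr j)) (b i : ZMod (pr j))) : ℝ)) ^ k := by
      have h6 : (((N - 1 : ℕ) : ℕ) : ℝ) = (N : ℝ) - 1 := by
        rw [Nat.cast_sub hN, Nat.cast_one]
      rw [← h6]
      exact_mod_cast h4
    rw [hX]
    have h6 : (1 - 1 / (N : ℝ)) ^ K = ((N : ℝ) - 1) ^ K / (N : ℝ) ^ K := by
      rw [← div_pow]
      congr 1
      field_simp
    rw [h6, div_mul_eq_mul_div, le_div_iff₀ (by positivity)]
    linarith
  have h3 : ∀ n, ((boz.filter (fun z => Lf (bp i c R f n z))).card : ℝ) ≤ (L : ℝ) ^ k := by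
    intro n
    rw [← hbz]
    exact_mod_cast card_filter_le _ _
  have hbadc : (bad.card : ℝ) ≤ ∑ m ∈ range K,
      ((2 * r + 6 * Ψ.totalDegree : ℕ) : ℝ) / z m * (L : ℝ) ^ r := by
    have h4 : bad ⊆ (range K).biUnion (fun m => box.filter (fun n => Bdp i Ψ (ld m).red c R n)) := by
      intro n hn
      rw [hbad, mem_filter] at hn
      obtain ⟨hn1, m, hm, hn2⟩ := hn
      rw [mem_biUnion]
      exact ⟨m, mem_range.2 hm, mem_filter.2 ⟨hn1, hn2⟩⟩
    have h5 : (bad.card : ℝ) ≤ ∑ m ∈ range K,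
        ((box.filter (fun n => Bdp i Ψ (ld m).red c R n)).card : ℝ) := by
      exact_mod_cast (card_le_card h4).trans card_biUnion_le
    refine h5.trans (sum_le_sum fun m hm => ?_)
    have hm' := mem_range.1 hm
    exact bad_count i Ψ m0 (hm0 m hm') (fun j => finite_pt _ _) (ld m).red c R L (z m)
      (hz m hm') (hzL m hm') (ho m hm')
  have h4 : (((box ×ˢ boz).filter (fun nz => Lf (bp i c R f nz.1 nz.2))).card : ℝ) ≤
      ∑ n ∈ box, ((boz.filter (fun z => Lf (bp i c R f n z))).card : ℝ) := by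
    exact_mod_cast h1
  refine h4.trans ?_
  have h5 : ∑ n ∈ box, ((boz.filter (fun z => Lf (bp i c R f n z))).card : ℝ) ≤
      ∑ n ∈ box, (X + if n ∈ bad then (L : ℝ) ^ k else 0) := by
    refine sum_le_sum fun n hn => ?_
    by_cases hnb : n ∈ bad
    · rw [if_pos hnb]
      linarith [h3 n]
    · rw [if_neg hnb, add_zero]
      exact h2 n hn hnb
  refine h5.trans ?_
  rw [sum_add_distrib, sum_const, nsmul_eq_mul, hbc, ← sum_filter, sum_const, nsmul_eq_mul]
  have h6 : (((box.filter (fun n => n ∈ bad)).card : ℕ) : ℝ) ≤ bad.card := by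
    have : box.filter (fun n => n ∈ bad) ⊆ bad := fun n hn => (mem_filter.1 hn).2
    exact_mod_cast card_le_card this
  have h7 : (((box.filter (fun n => n ∈ bad)).card : ℕ) : ℝ) * (L : ℝ) ^ k ≤
      (∑ m ∈ range K, ((2 * r + 6 * Ψ.totalDegree : ℕ) : ℝ) / z m) * (L : ℝ) ^ r * (L : ℝ) ^ k := by
    apply mul_le_mul_of_nonneg_right _ (by positivity)
    refine (h6.trans hbadc).trans (le_of_eq ?_)
    rw [sum_mul]
  linarith

end

end Pool.Agent.J4H11.GC
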