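import Pool.Agent.J4H11.GC.Gp
import Pool.Agent.J4H11.GC.Hs

/-!
# The tower of primes and the count of the box
-/

set_option autoImplicit false

namespace Pool.Agent.J4H11.GC

open Finset MvPolynomial WeierstrassCurve Pool.Agent.H901R3.MS Pool.Agent.J4H11.RC

/-- the exponents of the products of the group orders -/
def EE : ℕ → ℕ
  | 0 => 0
  | m + 1 => EE m + 1 + 1000 ^ m

theorem ee_le (m : ℕ) : 100 * EE m ≤ 1000 ^ m := by
  induction m with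
  | zero => simp [EE]
  | succ m ih =>
    have h1 : EE (m + 1) = EE m + 1 + 1000 ^ m := rfl
    have h2 : 1 ≤ 1000 ^ m := Nat.one_le_pow _ _ (by norm_num)
    rw [h1, pow_succ]
    omega

open Classical in
/-- the number of points modulo `p` -/
noncomputable def cnt (a b : ℤ) (p : ℕ) : ℕ :=
  if h : p.Prime then (haveI := Fact.mk h; Nat.card (Pt (a : ZMod p) (b : ZMod p))) else 1

theorem cnt_eq (a b : ℤ) (p : ℕ) [hp : Fact p.Prime] :
    cnt a b p = Nat.card (Pt (a : ZMod p) (b : ZMod p)) := dif_pos hp.out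

theorem cnt_le (a b : ℤ) (p : ℕ) [hp : Fact p.Prime] (hD : Disc (a : ZMod p) (b : ZMod p))
    (hp2 : p ≠ 2) : cnt a b p ≤ 4 * p := by
  rw [cnt_eq]
  have h1 := (abs_le.1 (hasse hD hp2)).2
  have h2 : (1 : ℝ) ≤ p := by exact_mod_cast hp.out.one_lt.le
  have h3 : √(p : ℝ) ≤ p := by
    rw [Real.sqrt_le_left (by linarith)]
    nlinarith
  have h4 : (Nat.card (Pt (a : ZMod p) (b : ZMod p)) : ℝ) ≤ ((4 * p : ℕ) : ℝ) := by
    push_cast
    linarith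
  exact_mod_cast h4

section
variable {r : ℕ} (i : Fin r) {a b : Fin r → ℤ}

theorem tower_primes (hD : ∀ j, Disc (a j : ℚ) (b j : ℚ))
    (f : Fin 3 → Pt (a i : ℚ) (b i : ℚ)) (hf : ∀ m : Fin 3 → ℤ, m ≠ 0 → ∑ t, m t • f t ≠ 0)
    (R : (j : Fin r) → Pt (a j : ℚ) (b j : ℚ)) (hR : ∀ j, ∀ n : ℕ, 0 < n → n • R j ≠ 0)
    (N1 Q u : ℕ) (hQ : 1 ≤ Q) (hu : Nat.Coprime u Q)
    (hN1 : ∀ p : ℕ, N1 < p → ∀ [Fact p.Prime], Disc (a i : ZMod p) (b i : ZMod p) ∧ p ≠ 2) :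
    ∃ B0 : ℕ, ∀ B : ℕ, B0 ≤ B → ∃ (pr : ℕ → ℕ) (_ : ∀ m, Fact (pr m).Prime),
      ∀ m, GoodT i f R N1 Q u (B ^ 1000 ^ m)
        (∏ j ∈ range m, Nat.card (Pt (a i : ZMod (pr j)) (b i : ZMod (pr j)))) (pr m) ∧
        ∏ j ∈ range m, Nat.card (Pt (a i : ZMod (pr j)) (b i : ZMod (pr j))) ≤ B ^ EE m := by
  classical
  obtain ⟨Y, hY⟩ := good_tower i hD f hf R hR N1 Q u hQ hu
  refine ⟨max Y 4, fun B hB => ?_⟩
  have hBY : Y ≤ B := (le_max_left _ _).trans hB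
  have hB4 : 4 ≤ B := (le_max_right _ _).trans hB
  have hB1 : 1 ≤ B := by omega
  have hnx : ∀ y M : ℕ, ∃ p : ℕ, (∃ p' : ℕ, GoodT i f R N1 Q u y M p') →
      GoodT i f R N1 Q u y M p := by
    intro y M
    by_cases h : ∃ p' : ℕ, GoodT i f R N1 Q u y M p'
    · obtain ⟨p, hp⟩ := h
      exact ⟨p, fun _ => hp⟩
    · exact ⟨0, fun h' => absurd h' h⟩
  choose nx hnx using hnx
  obtain ⟨Mq, hMq0, hMqS⟩ : ∃ Mq : ℕ → ℕ, Mq 0 = 1 ∧
      ∀ m, Mq (m + 1) = Mq m * cnt (a i) (b i) (nx (B ^ 1000 ^ m) (Mq m)) :=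
    ⟨fun m => Nat.rec 1 (fun m M => M * cnt (a i) (b i) (nx (B ^ 1000 ^ m) M)) m, rfl,
      fun _ => rfl⟩
  have hgood : ∀ m, 1 ≤ Mq m → Mq m ≤ B ^ EE m →
      GoodT i f R N1 Q u (B ^ 1000 ^ m) (Mq m) (nx (B ^ 1000 ^ m) (Mq m)) := by
    intro m h1 h2
    have hpw : B ≤ B ^ 1000 ^ m := by
      calc B = B ^ 1 := (pow_one B).symm
        _ ≤ B ^ 1000 ^ m := Nat.pow_le_pow_right hB1 (Nat.one_le_pow _ _ (by norm_num))
    refine hnx _ _ (hY _ (hBY.trans hpw) _ h1 ?_)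
    have h3 : (Mq m) ^ 100 ≤ B ^ 1000 ^ m := by
      calc (Mq m) ^ 100 ≤ (B ^ EE m) ^ 100 := Nat.pow_le_pow_left h2 100
        _ = B ^ (100 * EE m) := by rw [← pow_mul, mul_comm]
        _ ≤ B ^ 1000 ^ m := Nat.pow_le_pow_right hB1 (ee_le m)
    have h4 : ((Mq m : ℝ)) ^ 100 ≤ ((B ^ 1000 ^ m : ℕ) : ℝ) := by exact_mod_cast h3
    have h5 : ((Mq m : ℝ) ^ 100) ^ (1 / 100 : ℝ) = Mq m := by
      rw [← Real.rpow_natCast, ← Real.rpow_mul (Nat.cast_nonneg _)]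
      norm_num
    rw [← h5]
    exact Real.rpow_le_rpow (by positivity) h4 (by norm_num)
  have main : ∀ m, 1 ≤ Mq m ∧ Mq m ≤ B ^ EE m := by
    intro m
    induction m with
    | zero => rw [hMq0]; exact ⟨le_refl _, by simp [EE]⟩
    | succ m ih =>
      obtain ⟨ih1, ih2⟩ := ih
      have hg := hgood m ih1 ih2
      have : Fact (nx (B ^ 1000 ^ m) (Mq m)).Prime := ⟨hg.1⟩
      have hN := hN1 (nx (B ^ 1000 ^ m) (Mq m)) hg.2.2.1
      rw [hMqS]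
      constructor
      · have h1 : 1 ≤ cnt (a i) (b i) (nx (B ^ 1000 ^ m) (Mq m)) := by
          rw [cnt_eq]
          have := finite_pt ((a i : ℤ) : ZMod (nx (B ^ 1000 ^ m) (Mq m)))
            ((b i : ℤ) : ZMod (nx (B ^ 1000 ^ m) (Mq m)))
          exact Nat.card_pos
        exact Nat.one_le_iff_ne_zero.2 (Nat.mul_ne_zero (by omega) (by omega))
      · have h1 := cnt_le (a i) (b i) _ hN.1 hN.2
        have h2 : cnt (a i) (b i) (nx (B ^ 1000 ^ m) (Mq m)) ≤ B * B ^ 1000 ^ m :=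
          h1.trans (Nat.mul_le_mul hB4 hg.2.1)
        calc Mq m * cnt (a i) (b i) (nx (B ^ 1000 ^ m) (Mq m))
            ≤ B ^ EE m * (B * B ^ 1000 ^ m) := Nat.mul_le_mul ih2 h2
          _ = B ^ EE (m + 1) := by
            have : EE (m + 1) = EE m + 1 + 1000 ^ m := rfl
            rw [this, pow_add, pow_add, pow_one]
            ring
  have hG := fun m => hgood m (main m).1 (main m).2
  refine ⟨fun m => nx (B ^ 1000 ^ m) (Mq m), fun m => ⟨(hG m).1⟩, fun m => ?_⟩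
  have hprod : ∀ m, (∏ j ∈ range m, (haveI : Fact (nx (B ^ 1000 ^ j) (Mq j)).Prime := ⟨(hG j).1⟩
      Nat.card (Pt ((a i : ℤ) : ZMod (nx (B ^ 1000 ^ j) (Mq j))) 
        ((b i : ℤ) : ZMod (nx (B ^ 1000 ^ j) (Mq j)))))) = Mq m := by
    intro m
    induction m with
    | zero => rw [hMq0]; simp
    | succ m ih =>
      have : Fact (nx (B ^ 1000 ^ m) (Mq m)).Prime := ⟨(hG m).1⟩
      rw [prod_range_succ, ih, hMqS, cnt_eq]
  rw [hprod m]
  exact ⟨hG m, (main m).2⟩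

theorem asy_tower (θ γ : ℝ) (hθ : 0 ≤ θ) (hγ : 0 ≤ γ) (hγ1 : γ ≤ 1)
    (hθγ : θ * (1000 : ℝ) ^ (2 * γ) ≤ 1) (B0 : ℕ) : ∃ L0 : ℕ, 3 ≤ L0 ∧ ∀ L : ℕ, L0 ≤ L →
    ∃ B K : ℕ, B0 ≤ B ∧ 1 ≤ B ∧ B ^ 1000 ^ K ≤ L ∧
      θ ^ K ≤ (1000 : ℝ) ^ (2 * γ) * Real.log L ^ (-γ) ∧
      (K : ℝ) / (B : ℝ) ^ (3 / 10 : ℝ) ≤ 500 * Real.log L ^ (-γ) := by
  refine ⟨max 3 ⌈Real.exp ((Real.log (B0 + 1) + 1) ^ 2)⌉₊, le_max_left _ _, fun L hL => ?_⟩
  have hL1 : Real.exp ((Real.log (B0 + 1) + 1) ^ 2) ≤ L :=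
    (Nat.le_ceil _).trans (by exact_mod_cast (le_max_right _ _).trans hL)
  have hL3 : (3 : ℝ) ≤ L := by exact_mod_cast (le_max_left _ _).trans hL
  have hL0 : (0 : ℝ) < L := by linarith
  set x : ℝ := √(Real.log L) with hx
  have hlog : (Real.log (B0 + 1) + 1) ^ 2 ≤ Real.log L := by
    rw [Real.le_log_iff_exp_le hL0]
    exact hL1
  have hB0l : 0 ≤ Real.log ((B0 : ℝ) + 1) := Real.log_nonneg (by
    have : (0 : ℝ) ≤ B0 := Nat.cast_nonneg _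
    linarith)
  have hlog0 : 0 ≤ Real.log L := le_trans (by positivity) hlog
  have hx1 : Real.log (B0 + 1) + 1 ≤ x := Real.le_sqrt_of_sq_le hlog
  have hx1' : 1 ≤ x := by linarith
  have hx0 : 0 < x := by linarith
  have hxx : x * x = Real.log L := Real.mul_self_sqrt hlog0
  have hlogpos : 0 < Real.log L := by rw [← hxx]; positivity
  have hexp : (B0 : ℝ) + 1 ≤ Real.exp x := by
    have h1 : Real.exp (Real.log ((B0 : ℝ) + 1)) = B0 + 1 := Real.exp_log (by positivity)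
    rw [← h1]
    exact Real.exp_le_exp.2 (by linarith)
  have h1000 : (0 : ℝ) < Real.log 1000 := Real.log_pos (by norm_num)
  have hlx : 0 ≤ Real.log x := Real.log_nonneg hx1'
  set B : ℕ := ⌊Real.exp x⌋₊ with hB
  set K : ℕ := ⌊Real.log x / Real.log 1000⌋₊ with hK
  have hKx : (1000 : ℝ) ^ K ≤ x := by
    have h1 : (K : ℝ) ≤ Real.log x / Real.log 1000 := Nat.floor_le (by positivity)
    rw [le_div_iff₀ h1000] at h1
    have h2 : (1000 : ℝ) ^ K = Real.exp (K * Real.log 1000) := by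
      rw [mul_comm, Real.exp_mul, Real.exp_log (by norm_num), Real.rpow_natCast]
    rw [h2, ← Real.exp_log hx0]
    exact Real.exp_le_exp.2 h1
  have hxK : x ≤ (1000 : ℝ) ^ K * 1000 := by
    have h1 : Real.log x / Real.log 1000 ≤ (K : ℝ) + 1 := (Nat.lt_floor_add_one _).le
    rw [div_le_iff₀ h1000] at h1
    have h2 : (1000 : ℝ) ^ K * 1000 = Real.exp (((K : ℝ) + 1) * Real.log 1000) := by
      rw [mul_comm ((K : ℝ) + 1), Real.exp_mul, Real.exp_log (by norm_num), ← pow_succ]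
      exact_mod_cast (Real.rpow_natCast (1000 : ℝ) (K + 1)).symm
    rw [h2]
    calc x = Real.exp (Real.log x) := (Real.exp_log hx0).symm
      _ ≤ _ := Real.exp_le_exp.2 h1
  have hBle : (B : ℝ) ≤ Real.exp x := Nat.floor_le (Real.exp_pos _).le
  have hBge : Real.exp x / 2 ≤ (B : ℝ) := by
    have h1 : Real.exp x < (B : ℝ) + 1 := Nat.lt_floor_add_one _
    have h2 : 2 ≤ Real.exp x := by
      have := Real.add_one_le_exp x
      linarith
    linarith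
  have hBB0 : B0 + 1 ≤ B := by
    rw [hB, Nat.le_floor_iff (Real.exp_pos _).le]
    push_cast
    exact hexp
  refine ⟨B, K, by omega, by omega, ?_, ?_, ?_⟩
  · have h1 : ((B ^ 1000 ^ K : ℕ) : ℝ) ≤ L := by
      push_cast
      calc (B : ℝ) ^ 1000 ^ K ≤ (Real.exp x) ^ 1000 ^ K :=
            pow_le_pow_left₀ (Nat.cast_nonneg _) hBle _
        _ = Real.exp ((1000 ^ K : ℕ) * x) := (Real.exp_nat_mul x _).symm
        _ ≤ Real.exp (x * x) := by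
            apply Real.exp_le_exp.2
            push_cast
            exact mul_le_mul_of_nonneg_right hKx hx0.le
        _ = L := by rw [hxx, Real.exp_log hL0]
    exact_mod_cast h1
  · have h1 : θ ≤ (1000 : ℝ) ^ (-(2 * γ)) := by
      rw [Real.rpow_neg (by norm_num), ← one_div, le_div_iff₀ (by positivity)]
      exact hθγ
    have h2 : θ ^ K ≤ ((1000 : ℝ) ^ (-(2 * γ))) ^ K := pow_le_pow_left₀ hθ h1 K
    have h3 : ((1000 : ℝ) ^ (-(2 * γ))) ^ K = ((1000 : ℝ) ^ K) ^ (-(2 * γ)) := by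
      rw [← Real.rpow_natCast, ← Real.rpow_mul (by norm_num), ← Real.rpow_natCast,
        ← Real.rpow_mul (by norm_num), mul_comm]
    have h4 : ((1000 : ℝ) ^ K) ^ (-(2 * γ)) ≤ (x / 1000) ^ (-(2 * γ)) := by
      apply Real.rpow_le_rpow_of_nonpos (by positivity) _ (by linarith)
      rw [div_le_iff₀ (by norm_num)]
      exact hxK
    have h5 : (x / 1000) ^ (-(2 * γ)) = (1000 : ℝ) ^ (2 * γ) * Real.log L ^ (-γ) := by
      rw [Real.div_rpow hx0.le (by norm_num), ← hxx, Real.mul_rpow hx0.le hx0.le,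
        ← Real.rpow_add hx0, Real.rpow_neg (by norm_num : (0 : ℝ) ≤ 1000)]
      have : -(2 * γ) = -γ + -γ := by ring
      rw [this]
      field_simp
    calc θ ^ K ≤ ((1000 : ℝ) ^ (-(2 * γ))) ^ K := h2
      _ = _ := h3
      _ ≤ _ := h4
      _ = _ := h5
  · have hK0 : (K : ℝ) ≤ x := by
      have h1 : K < 1000 ^ K := Nat.lt_pow_self (by norm_num)
      have h2 : (K : ℝ) ≤ (1000 : ℝ) ^ K := by exact_mod_cast h1.le
      linarith
    have h1 : Real.exp (3 / 10 * x) / 2 ≤ (B : ℝ) ^ (3 / 10 : ℝ) := by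
      have h2 : (Real.exp x / 2) ^ (3 / 10 : ℝ) ≤ (B : ℝ) ^ (3 / 10 : ℝ) :=
        Real.rpow_le_rpow (by positivity) hBge (by norm_num)
      refine le_trans ?_ h2
      rw [Real.div_rpow (Real.exp_pos _).le (by norm_num), ← Real.exp_mul, mul_comm x]
      apply div_le_div_of_nonneg_left (Real.exp_pos _).le (by positivity)
      calc (2 : ℝ) ^ (3 / 10 : ℝ) ≤ (2 : ℝ) ^ (1 : ℝ) :=
            Real.rpow_le_rpow_of_exponent_le (by norm_num) (by norm_num)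
        _ = 2 := Real.rpow_one 2
    have h2 : (3 / 10 * x) ^ 3 / 6 ≤ Real.exp (3 / 10 * x) := by
      have := Real.pow_div_factorial_le_exp (x := 3 / 10 * x) (by positivity) 3
      norm_num [Nat.factorial] at this ⊢
      exact this
    have h3 : x ^ (-2 : ℝ) ≤ Real.log L ^ (-γ) := by
      rw [← hxx, Real.mul_rpow hx0.le hx0.le, ← Real.rpow_add hx0]
      exact Real.rpow_le_rpow_of_exponent_le hx1' (by linarith)
    have h4 : x ^ (-2 : ℝ) = 1 / x ^ 2 := by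
      rw [Real.rpow_neg hx0.le, one_div]
      norm_cast
    have h5 : (K : ℝ) / (B : ℝ) ^ (3 / 10 : ℝ) ≤ 500 * (1 / x ^ 2) := by
      have hB0 : 0 < (B : ℝ) ^ (3 / 10 : ℝ) := lt_of_lt_of_le (by positivity) h1
      rw [div_le_iff₀ hB0]
      have h6 : 500 * (1 / x ^ 2) * ((3 / 10 * x) ^ 3 / 6 / 2) ≤
          500 * (1 / x ^ 2) * (B : ℝ) ^ (3 / 10 : ℝ) := by
        apply mul_le_mul_of_nonneg_left _ (by positivity)
        linarith
      refine le_trans ?_ h6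
      have h7 : 500 * (1 / x ^ 2) * ((3 / 10 * x) ^ 3 / 6 / 2) = 9 / 8 * x := by
        field_simp
        ring
      rw [h7]
      linarith
    rw [← h4] at h5
    exact h5.trans (mul_le_mul_of_nonneg_left h3 (by norm_num))

open Classical in
theorem tower_count (hD : ∀ j, Disc (a j : ℚ) (b j : ℚ))
    (f : Fin 3 → Pt (a i : ℚ) (b i : ℚ)) (hf : ∀ m : Fin 3 → ℤ, m ≠ 0 → ∑ t, m t • f t ≠ 0)
    (R : (j : Fin r) → Pt (a j : ℚ) (b j : ℚ)) (hR : ∀ j, ∀ n : ℕ, 0 < n → n • R j ≠ 0)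
    (Q u : ℕ) (hQ : 1 ≤ Q) (hu : Nat.Coprime u Q) {ι : Type}
    (Ψ : MvPolynomial (Bi i) ℤ) (hΨ0 : Ψ ≠ 0) (N : ℕ) (hN : 1 ≤ N)
    (Lf : ι → ((j : Fin r) → Pt (a j : ℚ) (b j : ℚ)) → Prop) (hOb : Obst i a b Ψ N Q u Lf)
    (γ : ℝ) (hγ : 0 ≤ γ) (hγ1 : γ ≤ 1) (hγN : (1 - 1 / (N : ℝ)) * (1000 : ℝ) ^ (2 * γ) ≤ 1) :
    ∃ C : ℝ, 0 ≤ C ∧ ∃ L0 : ℕ, 3 ≤ L0 ∧ ∀ L : ℕ, L0 ≤ L → ∀ (δ : ι)
      (c : (j : Fin r) → Pt (a j : ℚ) (b j : ℚ)),
      ((((Fintype.piFinset (fun _ : Fin r => range L)) ×ˢ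
        (Fintype.piFinset (fun _ : Fin 3 => range L))).filter
      (fun nz => Lf δ (bp i c R f nz.1 nz.2))).card : ℝ) ≤
        C * (L : ℝ) ^ r * (L : ℝ) ^ 3 * Real.log L ^ (-γ) := by
  have hm0 : ∃ m0, Ψ.coeff m0 ≠ 0 := by
    by_contra h
    push Not at h
    exact hΨ0 (MvPolynomial.ext _ _ (fun m => by rw [h m, coeff_zero]))
  obtain ⟨m0, hm0⟩ := hm0
  obtain ⟨N0, hN0⟩ := exists_large i hD Ψ m0 hm0
  obtain ⟨T0, hT0⟩ := hOb (1 / 20) (by norm_num)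
  set N1 : ℕ := max N0 T0 with hN1
  obtain ⟨B0, hB0⟩ := tower_primes i hD f hf R hR N1 Q u hQ hu (by
    intro p hp _
    have := hN0 p (lt_of_le_of_lt (le_max_left _ _) hp)

    exact ⟨this.1 i, this.2.1⟩)
  have hNR : (1 : ℝ) ≤ N := by exact_mod_cast hN
  have hθ0 : 0 ≤ 1 - 1 / (N : ℝ) := by
    rw [sub_nonneg, div_le_one (by linarith)]
    exact hNR
  obtain ⟨L0, hL03, hL0⟩ := asy_tower (1 - 1 / (N : ℝ)) γ hθ0 hγ hγ1 hγN B0
  set D : ℝ := ((2 * r + 6 * Ψ.totalDegree : ℕ) : ℝ) with hDD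
  have hD0 : 0 ≤ D := Nat.cast_nonneg _
  refine ⟨8 * (1000 : ℝ) ^ (2 * γ) + 500 * D, by positivity, L0, hL03, fun L hL δ c => ?_⟩
  obtain ⟨B, K, hBB0, hB1, hBL, hθK, hKB⟩ := hL0 L hL
  obtain ⟨pr, hp, hpr⟩ := hB0 B hBB0
  have hL1R : (1 : ℝ) ≤ L := by
    have : 3 ≤ L := hL03.trans hL
    exact_mod_cast (by omega : 1 ≤ L)
  have hlarge : ∀ m, (∀ j, Disc (a j : ZMod (pr m)) (b j : ZMod (pr m))) ∧ pr m ≠ 2 ∧
    ((Ψ.coeff m0 : ℤ) : ZMod (pr m)) ≠ 0 := by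
    intro m
    have h1 := (hpr m).1.2.2.1
    have := hN0 (pr m) (lt_of_le_of_lt (le_max_left _ _) h1)

    exact ⟨this.1, this.2.1, this.2.2.1⟩
  have hldm : ∀ m, Nonempty (LD a b (pr m)) := fun m => exists_LD (pr m) (hlarge m).1
  obtain ⟨ld⟩ : Nonempty (∀ m, LD a b (pr m)) := ⟨fun m => (hldm m).some⟩
  have hS : ∀ m, ∃ S : Set ((j : Fin r) → Pt (a j : ZMod (pr m)) (b j : ZMod (pr m))),
      (∀ P, Lf δ P → (∀ j, (ld m).red j (P j) ≠ 0) → (fun j => (ld m).red j (P j)) ∈ S) ∧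
      LocOK i a b Ψ N (1 / 20) (pr m) S := by
    intro m
    refine hT0 (pr m) ?_ (hp m) (hpr m).1.2.2.2.1 (ld m) δ
    exact (le_max_right _ _).trans (hpr m).1.2.2.1.le
  choose S hS1 hS2 using hS
  have hs := fun m => (hpr m).1.2.2.2.2
  choose sz hsz1 hsz2 using hs
  have hy1 : ∀ m, (1 : ℝ) ≤ ((B ^ 1000 ^ m : ℕ) : ℝ) := by
    intro m
    exact_mod_cast Nat.one_le_pow _ _ (by omega)
  set z : ℕ → ℕ := fun m => ⌈((B ^ 1000 ^ m : ℕ) : ℝ) ^ (3 / 10 : ℝ)⌉₊ with hz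
  have hmono : ∀ m < K, B ^ 1000 ^ m ≤ L := by
    intro m hm
    refine le_trans ?_ hBL
    exact Nat.pow_le_pow_right hB1 (Nat.pow_le_pow_right (by norm_num) hm.le)
  have hz1 : ∀ m, 1 ≤ z m := by
    intro m
    rw [hz]
    simp only
    rw [Nat.one_le_ceil_iff]
    have := hy1 m
    positivity
  have hzL : ∀ m < K, z m ≤ L := by
    intro m hm
    refine le_trans ?_ (hmono m hm)
    rw [hz]
    simp only
    rw [Nat.ceil_le]
    calc ((B ^ 1000 ^ m : ℕ) : ℝ) ^ (3 / 10 : ℝ) ≤ ((B ^ 1000 ^ m : ℕ) : ℝ) ^ (1 : ℝ) :=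
          Real.rpow_le_rpow_of_exponent_le (hy1 m) (by norm_num)
      _ = _ := Real.rpow_one _
  have key := tower_box i Ψ m0 N hN (1 / 20) (Lf δ) c R f K L pr hp ld S
    (fun m _ P hP hne => hS1 m P hP hne) (fun m _ => hS2 m) sz
    (fun m _ => by
      refine le_trans ?_ (hsz1 m)
      apply Real.rpow_le_rpow (Nat.cast_nonneg _) _ (by norm_num)
      exact_mod_cast (hpr m).1.2.1)
    (fun m _ v hv hv0 => (hsz2 m (hp m) (ld m)).2 v hv hv0)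
    (fun m _ => (hlarge m).2.2) z (fun m _ => hz1 m) hzL
    (fun m _ j => ((hsz2 m (hp m) (ld m)).1 j).le)
  refine key.trans ?_
  have hlogL : 0 ≤ Real.log L ^ (-γ) := Real.rpow_nonneg (Real.log_nonneg hL1R) _
  have hprod : ((∏ j ∈ range K, (Nat.card (Pt (a i : ZMod (pr j)) (b i : ZMod (pr j))) : ℝ))) ≤ L := by
    have h1 := (hpr K).2
    have h2 : B ^ EE K ≤ L := by
      refine le_trans (Nat.pow_le_pow_right hB1 ?_) hBL
      have := ee_le K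
      omega
    have h3 := h1.trans h2
    exact_mod_cast h3
  have hprod0 : (0 : ℝ) ≤ ∏ j ∈ range K, (Nat.card (Pt (a i : ZMod (pr j)) (b i : ZMod (pr j))) : ℝ) :=
    prod_nonneg fun _ _ => Nat.cast_nonneg _
  have e1 : (1 - 1 / (N : ℝ)) ^ K *
        ((L : ℝ) + ∏ j ∈ range K, (Nat.card (Pt (a i : ZMod (pr j)) (b i : ZMod (pr j))) : ℝ)) ^ 3 ≤
      ((1000 : ℝ) ^ (2 * γ) * Real.log L ^ (-γ)) * (8 * (L : ℝ) ^ 3) := by
    apply mul_le_mul hθK _ (by positivity) (by positivity)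
    calc ((L : ℝ) + ∏ j ∈ range K, (Nat.card (Pt (a i : ZMod (pr j)) (b i : ZMod (pr j))) : ℝ)) ^ 3
        ≤ ((L : ℝ) + L) ^ 3 := by
          apply pow_le_pow_left₀ (by positivity)
          linarith
      _ = 8 * (L : ℝ) ^ 3 := by ring
  have e2 : ∑ m ∈ range K, D / z m ≤ D * (500 * Real.log L ^ (-γ)) := by
    have h1 : ∀ m ∈ range K, D / (z m : ℝ) ≤ D / (B : ℝ) ^ (3 / 10 : ℝ) := by
      intro m _
      have hB0' : (0 : ℝ) < (B : ℝ) := by exact_mod_cast hB1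
      apply div_le_div_of_nonneg_left hD0 (by positivity)
      have h2 : ((B ^ 1000 ^ m : ℕ) : ℝ) ^ (3 / 10 : ℝ) ≤ z m := Nat.le_ceil _
      refine le_trans ?_ h2
      apply Real.rpow_le_rpow hB0'.le _ (by norm_num)
      have h3 : B ≤ B ^ 1000 ^ m := by
        calc B = B ^ 1 := (pow_one B).symm
          _ ≤ B ^ 1000 ^ m := Nat.pow_le_pow_right hB1 (Nat.one_le_pow _ _ (by norm_num))
      exact_mod_cast h3
    refine (sum_le_sum h1).trans ?_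
    rw [sum_const, card_range, nsmul_eq_mul]
    calc (K : ℝ) * (D / (B : ℝ) ^ (3 / 10 : ℝ)) = D * ((K : ℝ) / (B : ℝ) ^ (3 / 10 : ℝ)) := by ring
      _ ≤ _ := mul_le_mul_of_nonneg_left hKB hD0
  have hLr : (0 : ℝ) ≤ (L : ℝ) ^ r := by positivity
  have hL3 : (0 : ℝ) ≤ (L : ℝ) ^ 3 := by positivity
  calc (L : ℝ) ^ r * ((1 - 1 / (N : ℝ)) ^ K *
        ((L : ℝ) + ∏ j ∈ range K, (Nat.card (Pt (a i : ZMod (pr j)) (b i : ZMod (pr j))) : ℝ)) ^ 3) +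
        (∑ m ∈ range K, D / z m) * (L : ℝ) ^ r * (L : ℝ) ^ 3
      ≤ (L : ℝ) ^ r * (((1000 : ℝ) ^ (2 * γ) * Real.log L ^ (-γ)) * (8 * (L : ℝ) ^ 3)) +
        (D * (500 * Real.log L ^ (-γ))) * (L : ℝ) ^ r * (L : ℝ) ^ 3 := by
        apply add_le_add (mul_le_mul_of_nonneg_left e1 hLr)
        exact mul_le_mul_of_nonneg_right (mul_le_mul_of_nonneg_right e2 hLr) hL3
    _ = _ := by ring

end

end Pool.Agent.J4H11.GC
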